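import Mathlib

/-! Algebra of the map `x ↦ t / (D + s x + r)` near a Moebius map with fixed points `p`, `m`. -/

set_option autoImplicit false

namespace Pool.Agent.Helper29.MS

/-- The standing inequalities: `p`, `m` are the fixed points of the Moebius map
`x ↦ t / (D + s x)`, that is `t = - s p m`, `D = - s (p + m)`. -/
structure Pair (s : ℂ) (K M : ℝ) (p m : ℂ) : Prop where
  s0 : s ≠ 0
  K0 : 0 ≤ K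
  hp : 0 < ‖p‖
  hpm : ‖p‖ < ‖m‖
  hM : 128 * K ≤ M * ‖s‖
  M0 : 0 < M
  star : M * ‖m‖ ^ 3 ≤ (‖m‖ - ‖p‖) * ‖p - m‖

variable {s t : ℂ} {K M : ℝ} {p m : ℂ}

theorem Pair.m0 (h : Pair s K M p m) : 0 < ‖m‖ := h.hp.trans h.hpm

theorem Pair.w0 (h : Pair s K M p m) : 0 < ‖p - m‖ := by
  rw [norm_pos_iff, sub_ne_zero]
  rintro rfl
  exact lt_irrefl _ h.hpm

theorem Pair.w_le (h : Pair s K M p m) : ‖p - m‖ ≤ 2 * ‖m‖ := by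
  have := norm_sub_le p m
  linarith [h.hpm]

/-- `X ≤ 2 η / M` with `η = 1 - |p| / |m|`. -/
theorem Pair.small (h : Pair s K M p m) : M * ‖m‖ ^ 2 ≤ 2 * (‖m‖ - ‖p‖) := by
  have h1 := h.star
  have h2 := h.w_le
  have h3 := h.m0
  have h4 : 0 < ‖m‖ - ‖p‖ := sub_pos.2 h.hpm
  have h5 : (‖m‖ - ‖p‖) * ‖p - m‖ ≤ (‖m‖ - ‖p‖) * (2 * ‖m‖) :=
    mul_le_mul_of_nonneg_left h2 h4.le
  have h6 : M * ‖m‖ ^ 2 * ‖m‖ ≤ 2 * (‖m‖ - ‖p‖) * ‖m‖ := by nlinarith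
  exact le_of_mul_le_mul_right h6 h3

/-- points of the trap -/
def Trap (p m : ℂ) (x : ℂ) : Prop := ‖m‖ * ‖x - p‖ < (‖m‖ + ‖p‖) / 2 * ‖x - m‖

/-- the inner trap -/
def Inn (p m : ℂ) (x : ℂ) : Prop := ‖m‖ * ‖x - p‖ ≤ ‖p‖ * ‖x - m‖

theorem xw (p m x : ℂ) : x * (p - m) = p * (x - m) - m * (x - p) := by ring

theorem Trap.lt (h : Pair s K M p m) {x : ℂ} (hx : Trap p m x) : ‖x - p‖ < ‖x - m‖ := by
  unfold Trap at hx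
  have h1 := h.m0
  have h2 : (‖m‖ + ‖p‖) / 2 ≤ ‖m‖ := by linarith [h.hpm]
  have h3 : (‖m‖ + ‖p‖) / 2 * ‖x - m‖ ≤ ‖m‖ * ‖x - m‖ :=
    mul_le_mul_of_nonneg_right h2 (norm_nonneg _)
  have h4 : ‖m‖ * ‖x - p‖ < ‖m‖ * ‖x - m‖ := hx.trans_le h3
  exact lt_of_mul_lt_mul_left h4 h1.le

theorem Trap.pos (h : Pair s K M p m) {x : ℂ} (hx : Trap p m x) : 0 < ‖x - m‖ :=
  (norm_nonneg _).trans_lt (hx.lt h)

/-- `|x| |w| ≤ 2 X A` -/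
theorem Trap.xw_le (h : Pair s K M p m) {x : ℂ} (hx : Trap p m x) :
    ‖x‖ * ‖p - m‖ ≤ 2 * ‖m‖ * ‖x - m‖ := by
  have h1 : ‖x * (p - m)‖ ≤ ‖p‖ * ‖x - m‖ + ‖m‖ * ‖x - p‖ := by
    rw [xw p m x]
    refine (norm_sub_le _ _).trans ?_
    rw [norm_mul, norm_mul]
  rw [norm_mul] at h1
  have h2 := hx.lt h
  have h3 := h.m0
  have h4 : ‖p‖ * ‖x - m‖ ≤ ‖m‖ * ‖x - m‖ :=
    mul_le_mul_of_nonneg_right h.hpm.le (norm_nonneg _)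
  have h5 : ‖m‖ * ‖x - p‖ ≤ ‖m‖ * ‖x - m‖ := mul_le_mul_of_nonneg_left h2.le h3.le
  linarith

/-- `η A ≤ 2 |w|` -/
theorem Trap.A_le (h : Pair s K M p m) {x : ℂ} (hx : Trap p m x) :
    (‖m‖ - ‖p‖) * ‖x - m‖ ≤ 2 * ‖m‖ * ‖p - m‖ := by
  have h1 : ‖x - m‖ ≤ ‖x - p‖ + ‖p - m‖ := by
    have := norm_add_le (x - p) (p - m)
    rwa [sub_add_sub_cancel] at this
  have h3 := h.m0
  have h4 : ‖m‖ * ‖x - m‖ ≤ ‖m‖ * ‖x - p‖ + ‖m‖ * ‖p - m‖ := by nlinarith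
  unfold Trap at hx
  nlinarith

/-- `|w| ≤ 2 A` -/
theorem Trap.w_le (h : Pair s K M p m) {x : ℂ} (hx : Trap p m x) : ‖p - m‖ ≤ 2 * ‖x - m‖ := by
  have h1 : ‖p - m‖ ≤ ‖x - m‖ + ‖x - p‖ := by
    have := norm_sub_le (x - m) (x - p)
    rwa [show x - m - (x - p) = p - m by ring] at this
  linarith [hx.lt h]

/-- the points of the trap are small -/
theorem Trap.x_le (h : Pair s K M p m) {x : ℂ} (hx : Trap p m x) : M * ‖x‖ ≤ 8 := by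
  -- |x| |w| ≤ 2 X A, η A ≤ 2 X |w| => |x| η ≤ 4 X²  and  M X² ≤ 2 η
  have h1 := hx.xw_le h
  have h2 := hx.A_le h
  have h3 := h.small
  have h4 : 0 < ‖m‖ - ‖p‖ := sub_pos.2 h.hpm
  have h5 := h.m0
  have hw := h.w0
  have hA := hx.pos h
  have hM := h.M0
  have h6 : (‖x‖ * ‖p - m‖) * (‖m‖ - ‖p‖) ≤ (2 * ‖m‖ * ‖x - m‖) * (‖m‖ - ‖p‖) :=
    mul_le_mul_of_nonneg_right h1 h4.le
  have h7 : (2 * ‖m‖) * ((‖m‖ - ‖p‖) * ‖x - m‖) ≤ (2 * ‖m‖) * (2 * ‖m‖ * ‖p - m‖) :=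
    mul_le_mul_of_nonneg_left h2 (by linarith)
  have h8 : (‖x‖ * (‖m‖ - ‖p‖)) * ‖p - m‖ ≤ (4 * ‖m‖ ^ 2) * ‖p - m‖ := by nlinarith
  have h9 : ‖x‖ * (‖m‖ - ‖p‖) ≤ 4 * ‖m‖ ^ 2 := le_of_mul_le_mul_right h8 hw
  have h10 : (M * ‖x‖) * (‖m‖ - ‖p‖) ≤ 8 * (‖m‖ - ‖p‖) := by
    calc (M * ‖x‖) * (‖m‖ - ‖p‖) = M * (‖x‖ * (‖m‖ - ‖p‖)) := by ring
      _ ≤ M * (4 * ‖m‖ ^ 2) := mul_le_mul_of_nonneg_left h9 hM.le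
      _ ≤ 8 * (‖m‖ - ‖p‖) := by linarith
  exact le_of_mul_le_mul_right h10 h4

theorem main_id (s p m x r : ℂ) : (x - m) * (s * (x - p) + r) =
    (x - p) * (s * (x - m) + r) + r * (p - m) := by ring

/-- the denominator of the map -/
def den (s p m x r : ℂ) : ℂ := -s * (p + m) + s * x + r

theorem num_p (s p m x r : ℂ) : -s * p * m - p * den s p m x r = -(p * (s * (x - p) + r)) := by
  unfold den; ring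

theorem num_m (s p m x r : ℂ) : -s * p * m - m * den s p m x r = -(m * (s * (x - m) + r)) := by
  unfold den; ring

/-- lower bound of `B` -/
theorem B_ge {x r : ℂ} (hr : ‖r‖ ≤ ‖s‖ * ‖x - m‖ / 4) :
    3 / 4 * (‖s‖ * ‖x - m‖) ≤ ‖s * (x - m) + r‖ := by
  have h1 : ‖s * (x - m)‖ ≤ ‖s * (x - m) + r‖ + ‖r‖ := by
    have := norm_sub_le (s * (x - m) + r) r
    rwa [add_sub_cancel_right] at this
  rw [norm_mul] at h1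
  linarith

/-- first form: `r` small of second order; the image of the trap is in the inner trap -/
theorem step1 (h : Pair s K M p m) {x r : ℂ} (hx : Trap p m x) (hr : ‖r‖ ≤ K * ‖x‖ ^ 2) :
    ‖m‖ * ‖-s * p * m - p * den s p m x r‖ ≤ ‖p‖ * ‖-s * p * m - m * den s p m x r‖ ∧
      s * (x - m) + r ≠ 0 := by
  have hs : 0 < ‖s‖ := norm_pos_iff.2 h.s0
  have hA := hx.pos h
  have hw := h.w0
  have hm := h.m0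
  have hη : 0 < ‖m‖ - ‖p‖ := sub_pos.2 h.hpm
  have hK := h.K0
  have h1 := hx.xw_le h
  have h2 := hx.A_le h
  have hst := h.star
  have hMs := h.hM
  -- |r| |w|² ≤ 4 K X² A²
  have h3 : ‖r‖ * ‖p - m‖ ^ 2 ≤ 4 * K * ‖m‖ ^ 2 * ‖x - m‖ ^ 2 := by
    have e1 : (‖x‖ * ‖p - m‖) ^ 2 ≤ (2 * ‖m‖ * ‖x - m‖) ^ 2 :=
      pow_le_pow_left₀ (by positivity) h1 2
    have e2 : ‖r‖ * ‖p - m‖ ^ 2 ≤ K * ‖x‖ ^ 2 * ‖p - m‖ ^ 2 :=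
      mul_le_mul_of_nonneg_right hr (by positivity)
    have e3 : K * (‖x‖ * ‖p - m‖) ^ 2 ≤ K * (2 * ‖m‖ * ‖x - m‖) ^ 2 :=
      mul_le_mul_of_nonneg_left e1 hK
    nlinarith
  -- multiply by X M : M X³ ≤ η X w
  have h4 : 32 * K * ‖m‖ ^ 3 ≤ ‖s‖ / 4 * ((‖m‖ - ‖p‖) * ‖p - m‖) := by
    have e1 : 128 * K * ‖m‖ ^ 3 ≤ M * ‖s‖ * ‖m‖ ^ 3 :=
      mul_le_mul_of_nonneg_right hMs (by positivity)
    have e2 : ‖s‖ * (M * ‖m‖ ^ 3) ≤ ‖s‖ * ((‖m‖ - ‖p‖) * ‖p - m‖) :=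
      mul_le_mul_of_nonneg_left hst hs.le
    nlinarith
  -- |r| |w| X ≤ (η X) |s| A² / 32
  have h5 : ‖m‖ * (‖r‖ * ‖p - m‖) ≤ (‖m‖ - ‖p‖) * (‖s‖ / 32 * ‖x - m‖ ^ 2) := by
    have e1 : (‖m‖ * (‖r‖ * ‖p - m‖)) * ‖p - m‖ ≤
        ((‖m‖ - ‖p‖) * (‖s‖ / 32 * ‖x - m‖ ^ 2)) * ‖p - m‖ := by
      calc (‖m‖ * (‖r‖ * ‖p - m‖)) * ‖p - m‖ = ‖m‖ * (‖r‖ * ‖p - m‖ ^ 2) := by ring
        _ ≤ ‖m‖ * (4 * K * ‖m‖ ^ 2 * ‖x - m‖ ^ 2) := mul_le_mul_of_nonneg_left h3 hm.le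
        _ = (32 * K * ‖m‖ ^ 3) * (‖x - m‖ ^ 2 / 8) := by ring
        _ ≤ (‖s‖ / 4 * ((‖m‖ - ‖p‖) * ‖p - m‖)) * (‖x - m‖ ^ 2 / 8) :=
            mul_le_mul_of_nonneg_right h4 (by positivity)
        _ = _ := by ring
    exact le_of_mul_le_mul_right e1 hw
  -- |r| ≤ |s| A / 4
  have h6 : ‖r‖ ≤ ‖s‖ * ‖x - m‖ / 4 := by
    have e1 : (‖m‖ * (‖r‖ * ‖p - m‖)) ≤ ‖s‖ / 16 * ‖x - m‖ * (‖m‖ * ‖p - m‖) := by
      calc (‖m‖ * (‖r‖ * ‖p - m‖)) ≤ (‖m‖ - ‖p‖) * (‖s‖ / 32 * ‖x - m‖ ^ 2) := h5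
        _ = (‖s‖ / 32 * ‖x - m‖) * ((‖m‖ - ‖p‖) * ‖x - m‖) := by ring
        _ ≤ (‖s‖ / 32 * ‖x - m‖) * (2 * ‖m‖ * ‖p - m‖) :=
            mul_le_mul_of_nonneg_left h2 (by positivity)
        _ = _ := by ring
    have e2 : ‖r‖ * (‖m‖ * ‖p - m‖) ≤ (‖s‖ / 16 * ‖x - m‖) * (‖m‖ * ‖p - m‖) := by linarith
    have e3 := le_of_mul_le_mul_right e2 (by positivity)
    have : 0 ≤ ‖s‖ * ‖x - m‖ := by positivity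
    linarith
  have hB := B_ge (s := s) (m := m) h6
  have hBpos : 0 < ‖s * (x - m) + r‖ := lt_of_lt_of_le (by positivity) hB
  refine ⟨?_, norm_pos_iff.1 hBpos⟩
  rw [num_p, num_m, norm_neg, norm_neg, norm_mul, norm_mul]
  set B := ‖s * (x - m) + r‖ with hBdef
  -- A |s (x - p) + r| ≤ |x - p| B + |r| |w|
  have h7 : ‖x - m‖ * ‖s * (x - p) + r‖ ≤ ‖x - p‖ * B + ‖r‖ * ‖p - m‖ := by
    rw [← norm_mul, main_id]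
    refine (norm_add_le _ _).trans ?_
    rw [norm_mul, norm_mul]
  -- X |x - p| < (X + |p|) / 2 A
  unfold Trap at hx
  have h8 : ‖m‖ * (‖x - m‖ * ‖s * (x - p) + r‖) ≤ ‖m‖ * ‖x - m‖ * B := by
    have e1 : ‖m‖ * ‖x - p‖ * B ≤ (‖m‖ + ‖p‖) / 2 * ‖x - m‖ * B :=
      mul_le_mul_of_nonneg_right hx.le hBpos.le
    have e2 : (‖m‖ - ‖p‖) * (‖s‖ / 32 * ‖x - m‖ ^ 2) ≤ (‖m‖ - ‖p‖) * (‖x - m‖ * B / 2) := by
      apply mul_le_mul_of_nonneg_left _ hη.le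
      nlinarith
    nlinarith
  have h9 : ‖s * (x - p) + r‖ ≤ B := by
    have e : (‖m‖ * ‖x - m‖) * ‖s * (x - p) + r‖ ≤ (‖m‖ * ‖x - m‖) * B := by linarith
    exact le_of_mul_le_mul_left e (by positivity)
  calc ‖m‖ * (‖p‖ * ‖s * (x - p) + r‖) = (‖m‖ * ‖p‖) * ‖s * (x - p) + r‖ := by ring
    _ ≤ (‖m‖ * ‖p‖) * B := mul_le_mul_of_nonneg_left h9 (by positivity)
    _ = _ := by ring

/-- second form: exact fixed point `p`; the map is a contraction towards `p` -/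
theorem step2 (h : Pair s K M p m) {x r : ℂ} (hx : Trap p m x)
    (hr : ‖r‖ ≤ K * (‖x - p‖ * (‖x‖ + ‖p‖))) :
    2 * ‖m‖ * (‖x - m‖ * ‖-s * p * m - p * den s p m x r‖) ≤
      (‖m‖ + ‖p‖) * (‖x - p‖ * ‖-s * p * m - m * den s p m x r‖) ∧
      s * (x - m) + r ≠ 0 := by
  have hs : 0 < ‖s‖ := norm_pos_iff.2 h.s0
  have hA := hx.pos h
  have hw := h.w0
  have hm := h.m0
  have hη : 0 < ‖m‖ - ‖p‖ := sub_pos.2 h.hpm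
  have hK := h.K0
  have h1 := hx.xw_le h
  have h2 := hx.A_le h
  have hw2 := hx.w_le h
  have hsm := h.small
  have hMs := h.hM
  have hpp := h.hp
  -- |r| |w| ≤ 4 K X A |x - p|
  have h3 : ‖r‖ * ‖p - m‖ ≤ 4 * K * ‖m‖ * (‖x - m‖ * ‖x - p‖) := by
    have e1 : (‖x‖ + ‖p‖) * ‖p - m‖ ≤ 4 * ‖m‖ * ‖x - m‖ := by
      have : ‖p‖ * ‖p - m‖ ≤ ‖m‖ * (2 * ‖x - m‖) :=
        mul_le_mul h.hpm.le hw2 hw.le hm.le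
      linarith
    calc ‖r‖ * ‖p - m‖ ≤ K * (‖x - p‖ * (‖x‖ + ‖p‖)) * ‖p - m‖ :=
          mul_le_mul_of_nonneg_right hr hw.le
      _ = (K * ‖x - p‖) * ((‖x‖ + ‖p‖) * ‖p - m‖) := by ring
      _ ≤ (K * ‖x - p‖) * (4 * ‖m‖ * ‖x - m‖) :=
          mul_le_mul_of_nonneg_left e1 (by positivity)
      _ = _ := by ring
  -- 64 K X² ≤ |s| (X - |p|)
  have h4 : 64 * K * ‖m‖ ^ 2 ≤ ‖s‖ * (‖m‖ - ‖p‖) := by
    have e1 : 128 * K * ‖m‖ ^ 2 ≤ M * ‖s‖ * ‖m‖ ^ 2 :=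
      mul_le_mul_of_nonneg_right hMs (by positivity)
    have e2 : ‖s‖ * (M * ‖m‖ ^ 2) ≤ ‖s‖ * (2 * (‖m‖ - ‖p‖)) :=
      mul_le_mul_of_nonneg_left hsm hs.le
    nlinarith
  -- |r| ≤ |s| A / 4
  have hxp := (hx.lt h).le
  have h6 : ‖r‖ ≤ ‖s‖ * ‖x - m‖ / 4 := by
    have e1 : (‖m‖ * ‖p - m‖) * ‖r‖ ≤ (‖m‖ * ‖p - m‖) * (‖s‖ * ‖x - m‖ / 8) := by
      calc (‖m‖ * ‖p - m‖) * ‖r‖ = ‖m‖ * (‖r‖ * ‖p - m‖) := by ring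
        _ ≤ ‖m‖ * (4 * K * ‖m‖ * (‖x - m‖ * ‖x - p‖)) := mul_le_mul_of_nonneg_left h3 hm.le
        _ = (64 * K * ‖m‖ ^ 2) * (‖x - m‖ * ‖x - p‖ / 16) := by ring
        _ ≤ (‖s‖ * (‖m‖ - ‖p‖)) * (‖x - m‖ * ‖x - p‖ / 16) :=
            mul_le_mul_of_nonneg_right h4 (by positivity)
        _ = (‖s‖ * ‖x - p‖ / 16) * ((‖m‖ - ‖p‖) * ‖x - m‖) := by ring
        _ ≤ (‖s‖ * ‖x - p‖ / 16) * (2 * ‖m‖ * ‖p - m‖) :=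
            mul_le_mul_of_nonneg_left h2 (by positivity)
        _ ≤ (‖s‖ * ‖x - m‖ / 16) * (2 * ‖m‖ * ‖p - m‖) := by
            apply mul_le_mul_of_nonneg_right _ (by positivity)
            have : ‖s‖ * ‖x - p‖ ≤ ‖s‖ * ‖x - m‖ := mul_le_mul_of_nonneg_left hxp hs.le
            linarith
        _ = _ := by ring
    have e3 := le_of_mul_le_mul_left e1 (by positivity)
    have : 0 ≤ ‖s‖ * ‖x - m‖ := by positivity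
    linarith
  have hB := B_ge (s := s) (m := m) h6
  have hBpos : 0 < ‖s * (x - m) + r‖ := lt_of_lt_of_le (by positivity) hB
  refine ⟨?_, norm_pos_iff.1 hBpos⟩
  rw [num_p, num_m, norm_neg, norm_neg, norm_mul, norm_mul]
  set B := ‖s * (x - m) + r‖ with hBdef
  have h7 : ‖x - m‖ * ‖s * (x - p) + r‖ ≤ ‖x - p‖ * B + ‖r‖ * ‖p - m‖ := by
    rw [← norm_mul, main_id]
    refine (norm_add_le _ _).trans ?_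
    rw [norm_mul, norm_mul]
  -- X |r||w| ≤ 4 K X² A |x-p| ≤ |s| η X A |x-p| / 16 ≤ (X - |p|) |x-p| B / 12
  have h8 : ‖m‖ * (‖r‖ * ‖p - m‖) ≤ (‖m‖ - ‖p‖) * (‖x - p‖ * B) / 12 := by
    calc ‖m‖ * (‖r‖ * ‖p - m‖) ≤ ‖m‖ * (4 * K * ‖m‖ * (‖x - m‖ * ‖x - p‖)) :=
          mul_le_mul_of_nonneg_left h3 hm.le
      _ = (64 * K * ‖m‖ ^ 2) * (‖x - m‖ * ‖x - p‖ / 16) := by ring
      _ ≤ (‖s‖ * (‖m‖ - ‖p‖)) * (‖x - m‖ * ‖x - p‖ / 16) :=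
          mul_le_mul_of_nonneg_right h4 (by positivity)
      _ = ((‖m‖ - ‖p‖) * ‖x - p‖ / 12) * (3 / 4 * (‖s‖ * ‖x - m‖)) := by ring
      _ ≤ ((‖m‖ - ‖p‖) * ‖x - p‖ / 12) * B := mul_le_mul_of_nonneg_left hB (by positivity)
      _ = _ := by ring
  -- final
  have hpB : 0 ≤ ‖x - p‖ * B := by positivity
  have h9 : ‖m‖ * (‖x - m‖ * ‖s * (x - p) + r‖) ≤
      (‖m‖ + (‖m‖ - ‖p‖) / 12) * (‖x - p‖ * B) := by nlinarith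
  have h10 : 2 * ‖p‖ * (‖m‖ + (‖m‖ - ‖p‖) / 12) ≤ (‖m‖ + ‖p‖) * ‖m‖ := by nlinarith
  calc 2 * ‖m‖ * (‖x - m‖ * (‖p‖ * ‖s * (x - p) + r‖))
      = 2 * ‖p‖ * (‖m‖ * (‖x - m‖ * ‖s * (x - p) + r‖)) := by ring
    _ ≤ 2 * ‖p‖ * ((‖m‖ + (‖m‖ - ‖p‖) / 12) * (‖x - p‖ * B)) :=
        mul_le_mul_of_nonneg_left h9 (by positivity)
    _ = (2 * ‖p‖ * (‖m‖ + (‖m‖ - ‖p‖) / 12)) * (‖x - p‖ * B) := by ring
    _ ≤ ((‖m‖ + ‖p‖) * ‖m‖) * (‖x - p‖ * B) := mul_le_mul_of_nonneg_right h10 hpB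
    _ = _ := by ring

end Pool.Agent.Helper29.MS
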