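import Mathlib
import Pool.Agent.Helper29.MS.Alg

/-! The distance of `D` to the segment where the Moebius map `t / (D + s x)` is elliptic. -/

set_option autoImplicit false

namespace Pool.Agent.Helper29.MS

open ComplexConjugate

/-- Joukowski: the point `ρ u + conj u / ρ` compared with the point `u + conj u` -/
theorem jk (w u : ℂ) {ρ : ℝ} (hρ : 0 < ρ) :
    w * (ρ * u) + w * (conj u / ρ) - w * (u + conj u) =
      w * ((1 - ρ) / ρ) * (conj u - ρ * u) := by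
  have : (ρ : ℂ) ≠ 0 := by exact_mod_cast hρ.ne'
  field_simp
  ring

theorem norm_conj_sub {u : ℂ} (hu : ‖u‖ = 1) {ρ : ℝ} (hρ : 0 ≤ ρ) (hρ1 : ρ ≤ 1) :
    ‖conj u - ρ * u‖ ≤ (1 + ρ) * ‖conj u - ρ ^ 2 * u‖ ∧ 1 - ρ ^ 2 ≤ ‖conj u - ρ ^ 2 * u‖ := by
  have h1 : 1 - ρ ^ 2 ≤ ‖conj u - ρ ^ 2 * u‖ := by
    have h2 := norm_sub_norm_le (conj u) ((ρ : ℂ) ^ 2 * u)
    have h3 : ‖conj u‖ = 1 := by rw [Complex.norm_conj, hu]
    have h4 : ‖(ρ : ℂ) ^ 2 * u‖ = ρ ^ 2 := by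
      rw [norm_mul, hu, norm_pow, Complex.norm_real, Real.norm_eq_abs, sq_abs, mul_one]
    rw [h3, h4] at h2
    exact h2
  refine ⟨?_, h1⟩
  have h2 : conj u - ρ * u = (conj u - ρ ^ 2 * u) + (((ρ ^ 2 - ρ : ℝ)) : ℂ) * u := by
    push_cast; ring
  have h3 : ‖(((ρ ^ 2 - ρ : ℝ)) : ℂ) * u‖ = ρ * (1 - ρ) := by
    rw [norm_mul, hu, Complex.norm_real, Real.norm_eq_abs, mul_one, abs_of_nonpos]
    · ring
    · nlinarith
  have h4 : ‖conj u - ρ * u‖ ≤ ‖conj u - ρ ^ 2 * u‖ + ρ * (1 - ρ) := by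
    rw [h2]
    exact (norm_add_le _ _).trans (by rw [h3])
  have h5 : ρ * (1 - ρ) ≤ ρ * ‖conj u - ρ ^ 2 * u‖ := by
    apply mul_le_mul_of_nonneg_left _ hρ
    nlinarith
  linarith

/-- polar coordinates for `p` with respect to a square root `w` of `p m` -/
theorem polar {p m w : ℂ} (hp : p ≠ 0) (hm : m ≠ 0) (hw : w ^ 2 = p * m) :
    ∃ (ρ : ℝ) (u : ℂ), 0 < ρ ∧ ‖u‖ = 1 ∧ p = w * (ρ * u) ∧ m = w * (conj u / ρ) ∧
      ρ * ‖w‖ = ‖p‖ ∧ ‖w‖ / ρ = ‖m‖ := by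
  have hw0 : w ≠ 0 := by
    rintro rfl
    rw [zero_pow two_ne_zero] at hw
    exact mul_ne_zero hp hm hw.symm
  have hν : p / w ≠ 0 := div_ne_zero hp hw0
  have hn : 0 < ‖p / w‖ := norm_pos_iff.2 hν
  have hnc : ((‖p / w‖ : ℝ) : ℂ) ≠ 0 := by exact_mod_cast hn.ne'
  have hu : ‖(p / w) / (‖p / w‖ : ℝ)‖ = 1 := by
    rw [norm_div, Complex.norm_real, norm_norm, div_self hn.ne']
  have hcu : conj ((p / w) / (‖p / w‖ : ℝ)) * ((p / w) / (‖p / w‖ : ℝ)) = 1 := by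
    rw [← Complex.normSq_eq_conj_mul_self, Complex.normSq_eq_norm_sq, hu]
    simp
  set u := (p / w) / (‖p / w‖ : ℝ) with hudef
  have hu0 : u ≠ 0 := by
    intro h
    rw [h, norm_zero] at hu
    exact zero_ne_one hu
  have hpw : p = w * ((‖p / w‖ : ℝ) * u) := by
    rw [hudef, mul_div_cancel₀ _ hnc, mul_div_cancel₀ _ hw0]
  have hwn : 0 < ‖w‖ := norm_pos_iff.2 hw0
  have hmw : m = w * (conj u / (‖p / w‖ : ℝ)) := by
    have h1 : p * m = w * ((‖p / w‖ : ℝ) * u) * m := by rw [← hpw]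
    rw [← hw] at h1
    have h2 : w = ((‖p / w‖ : ℝ) * u) * m := by
      apply mul_left_cancel₀ hw0
      rw [← mul_assoc, ← h1]; ring
    have h3 : conj u * w = (‖p / w‖ : ℝ) * m := by
      calc conj u * w = conj u * (((‖p / w‖ : ℝ) * u) * m) := by rw [← h2]
        _ = (‖p / w‖ : ℝ) * m * (conj u * u) := by ring
        _ = _ := by rw [hcu, mul_one]
    rw [← mul_div_assoc, eq_div_iff hnc, mul_comm w, h3]
    ring
  refine ⟨‖p / w‖, u, hn, hu, hpw, hmw, ?_, ?_⟩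
  · rw [norm_div]
    field_simp
  · have h1 : ‖conj u / ((‖p / w‖ : ℝ) : ℂ)‖ = 1 / ‖p / w‖ := by
      rw [norm_div, Complex.norm_conj, hu, Complex.norm_real, norm_norm]
    rw [hmw, norm_mul, h1]
    ring

/-- the roots of `s x ^ 2 + D x - t` -/
theorem exists_roots {s D t : ℂ} (hs : s ≠ 0) (ht : t ≠ 0) :
    ∃ p m : ℂ, ‖p‖ ≤ ‖m‖ ∧ 0 < ‖p‖ ∧ D = -s * (p + m) ∧ t = -s * p * m := by
  obtain ⟨e, he'⟩ := IsAlgClosed.exists_pow_nat_eq (D ^ 2 + 4 * s * t) (n := 2) (by norm_num)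
  have he : D ^ 2 + 4 * s * t = e ^ 2 := he'.symm
  set x := (-D + e) / (2 * s) with hx
  set y := (-D - e) / (2 * s) with hy
  have h1 : D = -s * (x + y) := by
    rw [hx, hy]; field_simp; ring
  have h2 : t = -s * x * y := by
    have : -s * x * y = (e ^ 2 - D ^ 2) / (4 * s) := by
      rw [hx, hy]; field_simp; ring
    rw [this, ← he]
    field_simp
    ring
  have hx0 : x ≠ 0 := by
    intro h; apply ht; rw [h2, h]; ring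
  have hy0 : y ≠ 0 := by
    intro h; apply ht; rw [h2, h]; ring
  rcases le_total ‖x‖ ‖y‖ with h | h
  · exact ⟨x, y, h, norm_pos_iff.2 hx0, h1, h2⟩
  · exact ⟨y, x, h, norm_pos_iff.2 hy0, by rw [h1]; ring, by rw [h2]; ring⟩

/-- The distance of `D` to the segment is at most `|s| (1 - |p| / |m|) |p - m|`. -/
theorem dist_le {s D t p m μ : ℂ} (hs : s ≠ 0) (hpm : ‖p‖ ≤ ‖m‖) (hp : 0 < ‖p‖)
    (hD : D = -s * (p + m)) (ht : t = -s * p * m) (hμ : μ ^ 2 = -(t * s)) :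
    ∃ r : ℝ, |r| ≤ 2 ∧ ‖m‖ * ‖D - r * μ‖ ≤ ‖s‖ * ((‖m‖ - ‖p‖) * ‖p - m‖) := by
  have hp0 : p ≠ 0 := norm_pos_iff.1 hp
  have hm0 : m ≠ 0 := norm_pos_iff.1 (hp.trans_le hpm)
  have hw : (μ / s) ^ 2 = p * m := by
    rw [div_pow, hμ, ht]
    field_simp
  obtain ⟨ρ, u, hρ, hu, hpw, hmw, hρp, hρm⟩ := polar hp0 hm0 hw
  set w := μ / s with hwdef
  have hμw : μ = s * w := by rw [hwdef]; field_simp
  have hw0 : 0 < ‖w‖ := by
    rcases eq_or_lt_of_le (norm_nonneg w) with h | h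
    · rw [← h, mul_zero] at hρp
      rw [← hρp] at hp
      exact absurd hp (lt_irrefl _)
    · exact h
  have hρ1 : ρ ≤ 1 := by
    rw [← hρp, ← hρm, le_div_iff₀ hρ] at hpm
    by_contra hcon
    push Not at hcon
    nlinarith
  refine ⟨-(2 * u.re), ?_, ?_⟩
  · rw [abs_neg, abs_mul, abs_two]
    have := Complex.abs_re_le_norm u
    rw [hu] at this
    linarith
  have hre : ((-(2 * u.re) : ℝ) : ℂ) = -(u + conj u) := by
    rw [Complex.add_conj]; push_cast; ring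
  have e1 : D - ((-(2 * u.re) : ℝ) : ℂ) * μ = -s * (w * ((1 - ρ) / ρ) * (conj u - ρ * u)) := by
    rw [hre, ← jk w u hρ, ← hpw, ← hmw, hD, hμw]
    ring
  have e2 : p - m = -(w / ρ) * (conj u - ρ ^ 2 * u) := by
    have : (ρ : ℂ) ≠ 0 := by exact_mod_cast hρ.ne'
    rw [hpw, hmw]
    field_simp
    ring
  have n1 : ‖D - ((-(2 * u.re) : ℝ) : ℂ) * μ‖ =
      ‖s‖ * (‖w‖ * ((1 - ρ) / ρ) * ‖conj u - ρ * u‖) := by
    rw [e1, norm_mul, norm_neg, norm_mul, norm_mul]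
    congr 3
    have : ((1 - ρ) / ρ : ℂ) = (((1 - ρ) / ρ : ℝ) : ℂ) := by push_cast; ring
    rw [this, Complex.norm_real, Real.norm_eq_abs, abs_of_nonneg]
    exact div_nonneg (by linarith) hρ.le
  have n2 : ‖p - m‖ = ‖w‖ / ρ * ‖conj u - ρ ^ 2 * u‖ := by
    rw [e2, norm_mul, norm_neg, norm_div, Complex.norm_real, Real.norm_eq_abs, abs_of_pos hρ]
  rw [n1, n2, ← hρm, ← hρp]
  obtain ⟨h1, -⟩ := norm_conj_sub hu hρ.le hρ1
  have h2 : (1 - ρ) * ‖conj u - ρ * u‖ ≤ (1 - ρ) * ((1 + ρ) * ‖conj u - ρ ^ 2 * u‖) :=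
    mul_le_mul_of_nonneg_left h1 (by linarith)
  have hs0 : 0 < ‖s‖ := norm_pos_iff.2 hs
  calc ‖w‖ / ρ * (‖s‖ * (‖w‖ * ((1 - ρ) / ρ) * ‖conj u - ρ * u‖))
      = (‖w‖ ^ 2 * ‖s‖ / ρ ^ 2) * ((1 - ρ) * ‖conj u - ρ * u‖) := by field_simp
    _ ≤ (‖w‖ ^ 2 * ‖s‖ / ρ ^ 2) * ((1 - ρ) * ((1 + ρ) * ‖conj u - ρ ^ 2 * u‖)) :=
        mul_le_mul_of_nonneg_left h2 (by positivity)
    _ = _ := by field_simp; ring

/-- away from the segment the inequality `Pair` holds -/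
theorem pair_of_dist {s D t : ℂ} {K M X₀ : ℝ} (hs : s ≠ 0) (ht : t ≠ 0) (hK : 0 ≤ K)
    (hM : 128 * K ≤ M * ‖s‖) (hM0 : 0 < M) (hX : 4 * M * X₀ ≤ 1)
    (hX1 : ‖D‖ / ‖s‖ + Real.sqrt (‖t‖ / ‖s‖) ≤ X₀)
    {μ : ℂ} (hμ : μ ^ 2 = -(t * s)) (hd : ∀ r : ℝ, |r| ≤ 2 → 2 * M * ‖t‖ ≤ ‖D - r * μ‖) :
    ∃ p m : ℂ, Pair s K M p m ∧ D = -s * (p + m) ∧ t = -s * p * m := by
  obtain ⟨p, m, hpm, hp, hD, htt⟩ := exists_roots (D := D) hs ht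
  obtain ⟨r, hr, h1⟩ := dist_le hs hpm hp hD htt hμ
  have h2 := hd r hr
  have hm : 0 < ‖m‖ := hp.trans_le hpm
  have hs0 : 0 < ‖s‖ := norm_pos_iff.2 hs
  have ht0 : 0 < ‖t‖ := norm_pos_iff.2 ht
  have htn : ‖t‖ = ‖s‖ * ‖p‖ * ‖m‖ := by rw [htt, norm_mul, norm_mul, norm_neg]
  have h3 : ‖m‖ * (2 * M * ‖t‖) ≤ ‖s‖ * ((‖m‖ - ‖p‖) * ‖p - m‖) :=
    (mul_le_mul_of_nonneg_left h2 hm.le).trans h1
  have hlt : ‖p‖ < ‖m‖ := by
    rcases eq_or_lt_of_le hpm with h | h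
    · exfalso
      rw [h, sub_self, zero_mul, mul_zero] at h3
      have : 0 < ‖m‖ * (2 * M * ‖t‖) := by positivity
      linarith
    · exact h
  have h4 : 2 * M * (‖p‖ * ‖m‖ ^ 2) ≤ (‖m‖ - ‖p‖) * ‖p - m‖ := by
    have e : ‖s‖ * (2 * M * (‖p‖ * ‖m‖ ^ 2)) ≤ ‖s‖ * ((‖m‖ - ‖p‖) * ‖p - m‖) := by
      rw [htn] at h3
      calc ‖s‖ * (2 * M * (‖p‖ * ‖m‖ ^ 2)) = ‖m‖ * (2 * M * (‖s‖ * ‖p‖ * ‖m‖)) := by ring
        _ ≤ _ := h3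
    exact le_of_mul_le_mul_left e hs0
  have hmX : ‖m‖ ≤ X₀ := by
    refine le_trans ?_ hX1
    have e1 : ‖D‖ = ‖s‖ * ‖p + m‖ := by rw [hD, norm_mul, norm_neg]
    have e2 : ‖D‖ / ‖s‖ = ‖p + m‖ := by rw [e1]; field_simp
    have e3 : ‖t‖ / ‖s‖ = ‖p‖ * ‖m‖ := by rw [htn]; field_simp
    rw [e2, e3]
    have e4 : ‖m‖ ≤ ‖p + m‖ + ‖p‖ := by
      have := norm_sub_le (p + m) p
      rwa [add_sub_cancel_left] at this
    have e5 : ‖p‖ ≤ Real.sqrt (‖p‖ * ‖m‖) := by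
      apply Real.le_sqrt_of_sq_le
      nlinarith
    linarith
  refine ⟨p, m, ⟨hs, hK, hp, hlt, hM, hM0, ?_⟩, hD, htt⟩
  rcases le_total (‖m‖ / 2) ‖p‖ with h | h
  · refine le_trans ?_ h4
    have : 0 < ‖m‖ ^ 2 := by positivity
    have e : M * (‖m‖ * ‖m‖ ^ 2) ≤ M * ((2 * ‖p‖) * ‖m‖ ^ 2) := by
      apply mul_le_mul_of_nonneg_left _ hM0.le
      apply mul_le_mul_of_nonneg_right _ this.le
      linarith
    nlinarith
  · have e1 : ‖m‖ - ‖p‖ ≤ ‖p - m‖ := by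
      rw [norm_sub_rev]
      exact norm_sub_norm_le m p
    have e2 : (‖m‖ / 2) * (‖m‖ / 2) ≤ (‖m‖ - ‖p‖) * ‖p - m‖ := by
      apply mul_le_mul <;> linarith
    refine le_trans ?_ e2
    have e3 : 4 * M * ‖m‖ ≤ 1 := by nlinarith
    have e4 : (4 * M * ‖m‖) * ‖m‖ ^ 2 ≤ 1 * ‖m‖ ^ 2 :=
      mul_le_mul_of_nonneg_right e3 (by positivity)
    nlinarith

end Pool.Agent.Helper29.MS
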