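import Mathlib
import Pool.Agent.Helper29.MS.Alg
import Pool.Graph.R_seed8.R239.Fat.T7

/-! The maps `a + t / (f - b)` for a rational map `f`. -/

set_option autoImplicit false

open Topology Filter Metric Set Polynomial
open scoped OnePoint
open Pool.Agent.H790R3.RB (CV hF ND sp pol hc pr)
open Pool.Agent.H790R3.RB.SP (pr_zero pr_ne pr_eq_iff pr_hc sp_pr sp_cont)
open Pool.Agent.H790R3.RB.PQ (hF_one hF_inf part1 sp_eval pol_natDegree)
open Pool.Agent.R239.Fat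

namespace Pool.Agent.Helper29.MS

/-- coefficients of `a + t / (f - b)` -/
noncomputable def gx {d : ℕ} (x : CV d) (a b t : ℂ) : CV d := fun r =>
  if r.1 = 0 then a * (x (0, r.2) - b * x (1, r.2)) + t * x (1, r.2)
  else x (0, r.2) - b * x (1, r.2)

theorem gx_zero {d : ℕ} (x : CV d) (a b t : ℂ) (j : Fin (d + 1)) :
    gx x a b t (0, j) = a * (x (0, j) - b * x (1, j)) + t * x (1, j) := by
  unfold gx; simp

theorem gx_one {d : ℕ} (x : CV d) (a b t : ℂ) (j : Fin (d + 1)) :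
    gx x a b t (1, j) = x (0, j) - b * x (1, j) := by
  unfold gx; simp

theorem hF_gx {d : ℕ} (x : CV d) (a b t : ℂ) (p : ℂ × ℂ) : hF (gx x a b t) p =
    (a * ((hF x p).1 - b * (hF x p).2) + t * (hF x p).2, (hF x p).1 - b * (hF x p).2) := by
  unfold hF
  simp only [gx_zero, gx_one]
  refine Prod.ext ?_ ?_
  · simp only [Finset.mul_sum, ← Finset.sum_sub_distrib, ← Finset.sum_add_distrib]
    exact Finset.sum_congr rfl fun j _ => by ring
  · simp only [Finset.mul_sum, ← Finset.sum_sub_distrib]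
    exact Finset.sum_congr rfl fun j _ => by ring

theorem ND_gx {d : ℕ} {x : CV d} (hx : ND x) {t : ℂ} (ht : t ≠ 0) (a b : ℂ) :
    ND (gx x a b t) := by
  intro p hp
  rw [hF_gx] at hp
  have h2 := congrArg Prod.snd hp
  have h1 := congrArg Prod.fst hp
  simp only [Prod.snd_zero, Prod.fst_zero] at h1 h2
  rw [h2, mul_zero, zero_add] at h1
  have h3 : (hF x p).2 = 0 := (mul_eq_zero.1 h1).resolve_left ht
  rw [h3, mul_zero, sub_zero] at h2
  exact hx p (Prod.ext h2 h3)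

theorem pol_gx_zero {d : ℕ} (x : CV d) (a b t : ℂ) :
    pol (gx x a b t) 0 = C a * (pol x 0 - C b * pol x 1) + C t * pol x 1 := by
  unfold pol
  simp only [Finset.mul_sum, ← Finset.sum_sub_distrib, ← Finset.sum_add_distrib]
  refine Finset.sum_congr rfl fun j _ => ?_
  rw [gx_zero]
  simp only [C_mul_monomial, ← map_sub, ← map_add]

theorem pol_gx_one {d : ℕ} (x : CV d) (a b t : ℂ) :
    pol (gx x a b t) 1 = pol x 0 - C b * pol x 1 := by
  unfold pol
  simp only [Finset.mul_sum, ← Finset.sum_sub_distrib]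
  refine Finset.sum_congr rfl fun j _ => ?_
  rw [gx_one]
  simp only [C_mul_monomial, ← map_sub]

theorem det_ne {t : ℂ} (ht : t ≠ 0) (a b : ℂ) : a * (-b) - (t - a * b) * 1 ≠ 0 := by
  intro h
  apply ht
  linear_combination -h

/-- the sphere map `a + t / (f - b)` -/
theorem sp_gx {d : ℕ} {x : CV d} (hx : ND x) {t : ℂ} (ht : t ≠ 0) (a b : ℂ) (z : Sph) :
    sp (gx x a b t) z = mob a (t - a * b) 1 (-b) (sp x z) := by
  obtain ⟨p, hp, rfl⟩ := exists_pr z
  have h1 : hF x p ≠ 0 := fun h => hp (hx p h)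
  rw [sp_pr (ND_gx hx ht a b) hp, sp_pr hx hp, mob_pr (det_ne ht a b) h1, hF_gx]
  congr 1
  refine Prod.ext ?_ ?_
  · simp only; ring
  · simp only; ring

theorem gx_inf {d : ℕ} {x : CV d} (hx : ND x) {t : ℂ} (ht : t ≠ 0) (a b : ℂ) {z : Sph}
    (hz : sp x z = ∞) : sp (gx x a b t) z = (a : Sph) := by
  rw [sp_gx hx ht, hz, mob_inf (det_ne ht a b), pr_ne (by simp)]
  simp

theorem gx_coe {d : ℕ} {x : CV d} (hx : ND x) {t : ℂ} (ht : t ≠ 0) (a b : ℂ) {z : Sph} {v : ℂ}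
    (hz : sp x z = (v : Sph)) (hv : v ≠ b) :
    sp (gx x a b t) z = ((a + t / (v - b) : ℂ) : Sph) := by
  have h1 : v - b ≠ 0 := sub_ne_zero.2 hv
  have h2 : 1 * v + -b ≠ 0 := by
    intro h; apply h1; linear_combination h
  rw [sp_gx hx ht, hz, mob_coe (det_ne ht a b) h2]
  congr 1
  rw [div_eq_iff h2, add_mul, div_mul_eq_mul_div, show 1 * v + -b = v - b by ring,
    mul_div_assoc, div_self h1]
  ring

theorem gx_pole {d : ℕ} {x : CV d} (hx : ND x) {t : ℂ} (ht : t ≠ 0) (a b : ℂ) {z : Sph}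
    (hz : sp x z = (b : Sph)) : sp (gx x a b t) z = ∞ := by
  rw [sp_gx hx ht, hz, mob_coe_inf (det_ne ht a b) (by ring)]

theorem locInj_gx {d : ℕ} {x : CV d} (hx : ND x) {t : ℂ} (ht : t ≠ 0) (a b : ℂ) (c : Sph) :
    LocInj (sp (gx x a b t)) c ↔ LocInj (sp x) c := by
  have hinj : Function.Injective (mob a (t - a * b) 1 (-b)) :=
    (mobH a (t - a * b) 1 (-b) (det_ne ht a b)).injective
  constructor
  · rintro ⟨U, hU, h⟩
    refine ⟨U, hU, fun y hy z hz hyz => h hy hz ?_⟩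
    rw [sp_gx hx ht, sp_gx hx ht, hyz]
  · rintro ⟨U, hU, h⟩
    refine ⟨U, hU, fun y hy z hz hyz => h hy hz ?_⟩
    rw [sp_gx hx ht, sp_gx hx ht] at hyz
    exact hinj hyz

/-- hyperbolicity as in the frozen statement -/
def HypPQ (P Q : ℂ[X]) : Prop :=
  IsCoprime P Q ∧ ∃ f : OnePoint ℂ → OnePoint ℂ, Continuous f ∧
    (∀ z : ℂ, Q.eval z ≠ 0 → f (OnePoint.some z) = OnePoint.some (P.eval z / Q.eval z)) ∧
    ∀ c : OnePoint ℂ, (¬ ∃ U ∈ nhds c, Set.InjOn f U) →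
      ∃ z : OnePoint ℂ, ∃ n : ℕ, 0 < n ∧ f^[n] z = z ∧
        (∃ U ∈ nhds z, ∀ w ∈ U,
          Filter.Tendsto (fun k : ℕ => f^[n * k] w) Filter.atTop (nhds z)) ∧
        Filter.Tendsto (fun k : ℕ => f^[n * k] c) Filter.atTop (nhds z)

/-- a pair of polynomials and its homogeneous form -/
theorem exists_cv {d : ℕ} (hd : 1 ≤ d) {P Q : ℂ[X]} (hc : IsCoprime P Q)
    (hm : max P.natDegree Q.natDegree = d) :
    ∃ x : CV d, ND x ∧ pol x 0 = P ∧ pol x 1 = Q ∧
      ∀ f : OnePoint ℂ → OnePoint ℂ, Continuous f →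
        (∀ z : ℂ, Q.eval z ≠ 0 →
          f (z : OnePoint ℂ) = ((P.eval z / Q.eval z : ℂ) : OnePoint ℂ)) → f = sp x :=
  (Pool.Agent.H790R3.RB.PQ Pool.Agent.H790R3.RB.SP d hd).2 P Q hc hm

theorem cv_unique {d : ℕ} {x y : CV d} (h0 : pol x 0 = pol y 0) (h1 : pol x 1 = pol y 1) :
    x = y := by
  funext r
  obtain ⟨i, j⟩ := r
  rw [← Pool.Agent.H790R3.RB.PQ.pol_coeff x i j, ← Pool.Agent.H790R3.RB.PQ.pol_coeff y i j]
  have : i = 0 ∨ i = 1 := by omega
  rcases this with rfl | rfl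
  · rw [h0]
  · rw [h1]

theorem hypPQ_iff {d : ℕ} (hd : 1 ≤ d) {x : CV d} (hx : ND x) :
    HypPQ (pol x 0) (pol x 1) ↔ Hyp (sp x) := by
  obtain ⟨hcop, hmax⟩ := part1 hd x hx
  obtain ⟨y, -, hy0, hy1, hu⟩ := exists_cv hd hcop hmax
  have hyx : y = x := cv_unique hy0 hy1
  subst hyx
  constructor
  · rintro ⟨-, f, hf, hfz, hcr⟩
    have := hu f hf hfz
    subst this
    exact hcr
  · intro h
    exact ⟨hcop, sp y, sp_cont hx, fun z hz => sp_eval y z hz, h⟩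

end Pool.Agent.Helper29.MS
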