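import Mathlib
import Pool.Agent.Helper29.MS.Setup
import Pool.Agent.Helper29.MS.Dist

/-! Hyperbolicity away from the segment and from the critical values. -/

set_option autoImplicit false

open Topology Filter Metric Set Polynomial
open scoped OnePoint
open Pool.Agent.H790R3.RB (CV hF ND sp pol hc pr)
open Pool.Agent.H790R3.RB.SP (pr_zero pr_ne pr_eq_iff pr_hc sp_pr sp_cont)
open Pool.Agent.H790R3.RB.PQ (hF_one hF_inf part1 sp_eval pol_natDegree)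
open Pool.Agent.R239.Fat

namespace Pool.Agent.Helper29.MS

/-- the rational function in the plane -/
noncomputable def fr {d : ℕ} (x : CV d) (z : ℂ) : ℂ := (pol x 0).eval z / (pol x 1).eval z

/-- local data at the point `a`, with uniform constants -/
structure Loc {d : ℕ} (x : CV d) (a s : ℂ) (s₀ S₀ K r β : ℝ) : Prop where
  s0 : s₀ ≤ ‖s‖
  s1 : ‖s‖ ≤ S₀
  q : ∀ z : ℂ, ‖z‖ ≤ r → (pol x 1).eval (a + z) ≠ 0
  k : ∀ z w : ℂ, ‖z‖ ≤ r → ‖w‖ ≤ r →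
    ‖fr x (a + z) - fr x (a + w) - s * (z - w)‖ ≤ K * (‖z - w‖ * (‖z‖ + ‖w‖))
  cv : ∀ c : Sph, ¬ LocInj (sp x) c → ∀ v : ℂ, sp x c = (v : Sph) → β ≤ ‖v - fr x a‖

theorem inn_ball {s : ℂ} {K M : ℝ} {p m : ℂ} (h : Pair s K M p m) {y y' : ℂ} (hy : Inn p m y)
    (hyy : ‖y' - y‖ < (‖m‖ - ‖p‖) * ‖p - m‖ / (16 * ‖m‖)) : Trap p m y' := by
  have hm := h.m0
  have hη : 0 < ‖m‖ - ‖p‖ := sub_pos.2 h.hpm
  have hw := h.w0
  have hp := h.hp
  set e := ‖y' - y‖ with he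
  rw [lt_div_iff₀ (by positivity)] at hyy
  unfold Inn at hy
  unfold Trap
  have h1 : ‖y' - p‖ ≤ ‖y - p‖ + e := by
    have := norm_add_le (y - p) (y' - y)
    rwa [show y - p + (y' - y) = y' - p by ring] at this
  have h2 : ‖y - m‖ ≤ ‖y' - m‖ + e := by
    have := norm_sub_le (y' - m) (y' - y)
    rwa [show y' - m - (y' - y) = y - m by ring] at this
  have h3 : ‖p - m‖ ≤ ‖y - m‖ + ‖y - p‖ := by
    have := norm_sub_le (y - m) (y - p)
    rwa [show y - m - (y - p) = p - m by ring] at this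
  have h4 : ‖m‖ * ‖y - p‖ ≤ ‖m‖ * ‖y - m‖ :=
    hy.trans (mul_le_mul_of_nonneg_right h.hpm.le (norm_nonneg _))
  have h5 : ‖y - p‖ ≤ ‖y - m‖ := le_of_mul_le_mul_left h4 hm
  have h6 : ‖p - m‖ / 2 - e ≤ ‖y' - m‖ := by linarith
  have he0 : 0 ≤ e := norm_nonneg _
  -- X |y' - p| ≤ |p| |y' - m| + (|p| + X) e
  have h7 : ‖m‖ * ‖y' - p‖ ≤ ‖p‖ * ‖y' - m‖ + (‖p‖ + ‖m‖) * e := by
    have e1 : ‖m‖ * ‖y' - p‖ ≤ ‖m‖ * (‖y - p‖ + e) := mul_le_mul_of_nonneg_left h1 hm.le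
    have e2 : ‖p‖ * ‖y - m‖ ≤ ‖p‖ * (‖y' - m‖ + e) := mul_le_mul_of_nonneg_left h2 hp.le
    linarith
  have h8 : (‖m‖ - ‖p‖) / 2 * (‖p - m‖ / 2 - e) ≤ (‖m‖ - ‖p‖) / 2 * ‖y' - m‖ :=
    mul_le_mul_of_nonneg_left h6 (by linarith)
  have h9 : (‖p‖ + ‖m‖) * e ≤ 2 * ‖m‖ * e := mul_le_mul_of_nonneg_right (by linarith [h.hpm]) he0
  have h10 : (‖m‖ - ‖p‖) * e ≤ ‖m‖ * e := mul_le_mul_of_nonneg_right (by linarith) he0
  nlinarith

theorem trap_small {s : ℂ} {K M : ℝ} {p m : ℂ} (h : Pair s K M p m) {y : ℂ}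
    (hy : 8 * ‖y‖ ≤ ‖m‖ - ‖p‖) : Trap p m y := by
  have hm := h.m0
  have hη : 0 < ‖m‖ - ‖p‖ := sub_pos.2 h.hpm
  have hp := h.hp
  unfold Trap
  have h1 : ‖y - p‖ ≤ ‖y‖ + ‖p‖ := norm_sub_le _ _
  have h2 : ‖m‖ - ‖y‖ ≤ ‖y - m‖ := by
    rw [norm_sub_rev]; exact norm_sub_norm_le m y
  have h3 : ‖m‖ * ‖y - p‖ ≤ ‖m‖ * (‖y‖ + ‖p‖) := mul_le_mul_of_nonneg_left h1 hm.le
  have h4 : (‖m‖ + ‖p‖) / 2 * (‖m‖ - ‖y‖) ≤ (‖m‖ + ‖p‖) / 2 * ‖y - m‖ :=
    mul_le_mul_of_nonneg_left h2 (by positivity)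
  have hy0 := norm_nonneg y
  nlinarith

section near

variable {d : ℕ} {x : CV d} {a s : ℂ} {s₀ S₀ K r β M : ℝ}

/-- one step in the trap -/
theorem near_step (hx : ND x) (hL : Loc x a s s₀ S₀ K r β) {t b p m : ℂ} (ht0 : t ≠ 0)
    (hP : Pair s K M p m) (hD : fr x a - b = -s * (p + m)) (ht : t = -s * p * m)
    (hr0 : 0 < r) (hMr : 8 ≤ M * r) {z : ℂ} (hz : Trap p m z) :
    ∃ y : ℂ, sp (gx x a b t) ((a + z : ℂ) : Sph) = ((a + y : ℂ) : Sph) ∧ Inn p m y := by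
  have hzr : ‖z‖ ≤ r := by
    have h1 := hz.x_le hP
    have := hP.M0
    by_contra hcon
    push Not at hcon
    nlinarith
  have hq := hL.q z hzr
  have hk := hL.k z 0 hzr (by rw [norm_zero]; exact hr0.le)
  rw [add_zero, sub_zero, norm_zero, add_zero] at hk
  set R := fr x (a + z) - fr x a - s * z with hR
  have hR2 : ‖R‖ ≤ K * ‖z‖ ^ 2 := by rw [pow_two]; exact hk
  obtain ⟨h1, h2⟩ := step1 hP hz hR2
  have hden : den s p m z R = fr x (a + z) - b := by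
    unfold den
    rw [hR, ← hD]; ring
  rw [← ht, hden] at h1
  have hm := hP.m0
  have htn : 0 < ‖t‖ := norm_pos_iff.2 ht0
  have hne : fr x (a + z) - b ≠ 0 := by
    intro h0
    rw [h0, mul_zero, mul_zero, sub_zero] at h1
    have := hP.hpm
    nlinarith
  have hval : sp x ((a + z : ℂ) : Sph) = ((fr x (a + z) : ℂ) : Sph) := sp_eval x _ hq
  refine ⟨t / (fr x (a + z) - b), gx_coe hx ht0 a b hval (sub_ne_zero.1 hne), ?_⟩
  unfold Inn
  have hpos : 0 < ‖fr x (a + z) - b‖ := norm_pos_iff.2 hne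
  have e1 : ∀ c : ℂ, ‖t / (fr x (a + z) - b) - c‖ =
      ‖t - c * (fr x (a + z) - b)‖ / ‖fr x (a + z) - b‖ := by
    intro c
    rw [← norm_div]
    congr 1
    field_simp
  rw [e1, e1, ← mul_div_assoc, ← mul_div_assoc]
  exact (div_le_div_iff_of_pos_right hpos).2 h1

/-- the trap is attracted -/
theorem near_att (hd : 1 ≤ d) (hx : ND x) (hL : Loc x a s s₀ S₀ K r β) {t b p m : ℂ} (ht0 : t ≠ 0)
    (hP : Pair s K M p m) (hD : fr x a - b = -s * (p + m)) (ht : t = -s * p * m)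
    (hr0 : 0 < r) (hMr : 8 ≤ M * r) {z : ℂ} (hz : Trap p m z) :
    Att (sp (gx x a b t)) ((a + z : ℂ) : Sph) := by
  have hM := hP.M0
  have hm := hP.m0
  have hη : 0 < ‖m‖ - ‖p‖ := sub_pos.2 hP.hpm
  have hw := hP.w0
  have hWo : IsOpen {y : ℂ | Trap p m (y - a)} := by
    unfold Trap
    exact isOpen_lt (by fun_prop) (by fun_prop)
  refine sph_att (W := {y : ℂ | Trap p m (y - a)}) (R := ‖a‖ + 8 / M)
    (r := (‖m‖ - ‖p‖) * ‖p - m‖ / (16 * ‖m‖)) (hol_sp hd (ND_gx hx ht0 a b)) hWo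
    (by positivity) ?_ (by positivity) ?_ ?_
  · intro y hy
    have h1 := Trap.x_le hP hy
    have h2 : ‖y - a‖ ≤ 8 / M := by rw [le_div_iff₀ hM]; linarith
    have h3 := norm_add_le (y - a) a
    rw [sub_add_cancel] at h3
    linarith
  · intro y hy
    obtain ⟨u, h1, h2⟩ := near_step hx hL ht0 hP hD ht hr0 hMr (z := y - a) hy
    rw [add_sub_cancel] at h1
    refine ⟨a + u, h1, fun y' hy' => ?_⟩
    rw [mem_ball, dist_eq_norm] at hy'
    refine inn_ball hP h2 ?_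
    rwa [show y' - a - u = y' - (a + u) by ring]
  · show Trap p m (a + z - a)
    rwa [add_sub_cancel_left]

end near

/-- the critical values are mapped into the trap -/
theorem crit_near {d : ℕ} {x : CV d} {a s : ℂ} {s₀ S₀ K r β M : ℝ} (hx : ND x)
    (hL : Loc x a s s₀ S₀ K r β) {t b p m : ℂ} (ht0 : t ≠ 0)
    (hP : Pair s K M p m) (ht : t = -s * p * m) (hβ : 0 < β) (hMβ : 32 * S₀ ≤ M * β)
    (hDs : ‖fr x a - b‖ ≤ β / 2) {c : Sph} (hc : ¬ LocInj (sp x) c) :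
    ∃ y : ℂ, sp (gx x a b t) c = ((a + y : ℂ) : Sph) ∧ Trap p m y := by
  have hm := hP.m0
  have hη : 0 < ‖m‖ - ‖p‖ := sub_pos.2 hP.hpm
  rcases eq_or_ne (sp x c) ∞ with h | h
  · refine ⟨0, ?_, trap_small hP ?_⟩
    · rw [gx_inf hx ht0 a b h, add_zero]
    · rw [norm_zero]; linarith
  · obtain ⟨v, hv⟩ := OnePoint.ne_infty_iff_exists.1 h
    have hcv := hL.cv c hc v hv.symm
    have h1 : β / 2 ≤ ‖v - b‖ := by
      have := norm_sub_le (v - b) (fr x a - b)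
      rw [show v - b - (fr x a - b) = v - fr x a by ring] at this
      linarith
    have hvb : v ≠ b := by
      rintro rfl
      rw [sub_self, norm_zero] at h1
      linarith
    refine ⟨t / (v - b), gx_coe hx ht0 a b hv.symm hvb, trap_small hP ?_⟩
    have hvb' : 0 < ‖v - b‖ := by linarith
    have hsm := hP.small
    have htn : ‖t‖ ≤ S₀ * ‖m‖ ^ 2 := by
      rw [ht, norm_mul, norm_mul, norm_neg, pow_two]
      have e1 : ‖s‖ * ‖p‖ ≤ S₀ * ‖m‖ :=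
        mul_le_mul hL.s1 hP.hpm.le hP.hp.le ((norm_nonneg _).trans hL.s1)
      calc ‖s‖ * ‖p‖ * ‖m‖ ≤ S₀ * ‖m‖ * ‖m‖ := mul_le_mul_of_nonneg_right e1 hm.le
        _ = _ := by ring
    rw [norm_div, ← mul_div_assoc, div_le_iff₀ hvb']
    -- 8 |t| ≤ 8 S₀ X² ≤ M β X² / 4 ≤ β η / 2
    have e2 : 32 * S₀ * ‖m‖ ^ 2 ≤ M * β * ‖m‖ ^ 2 := mul_le_mul_of_nonneg_right hMβ (by positivity)
    have e3 : β * (M * ‖m‖ ^ 2) ≤ β * (2 * (‖m‖ - ‖p‖)) := mul_le_mul_of_nonneg_left hsm hβ.le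
    have e4 : (‖m‖ - ‖p‖) * (β / 2) ≤ (‖m‖ - ‖p‖) * ‖v - b‖ := mul_le_mul_of_nonneg_left h1 hη.le
    nlinarith

/-- the trap far from the segment: images of a ball about `a` -/
theorem far_step {d : ℕ} {x : CV d} {a s : ℂ} {s₀ S₀ K r β ρ κ : ℝ} (hx : ND x)
    (hL : Loc x a s s₀ S₀ K r β) (hρ : 0 < ρ) (hρr : ρ ≤ r) (hK : 0 ≤ K)
    (hκ : S₀ * ρ + K * ρ ^ 2 ≤ κ / 2) (hκ0 : 0 < κ) {t b : ℂ} (ht0 : t ≠ 0)
    (hD : κ ≤ ‖fr x a - b‖) (ht : 4 * ‖t‖ ≤ κ * ρ) {z : ℂ} (hz : ‖z‖ ≤ ρ) :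
    ∃ y : ℂ, sp (gx x a b t) ((a + z : ℂ) : Sph) = ((a + y : ℂ) : Sph) ∧ ‖y‖ ≤ ρ / 2 := by
  have hzr : ‖z‖ ≤ r := hz.trans hρr
  have hq := hL.q z hzr
  have hk := hL.k z 0 hzr (by rw [norm_zero]; linarith)
  rw [add_zero, sub_zero, norm_zero, add_zero] at hk
  have h1 : ‖fr x (a + z) - fr x a‖ ≤ κ / 2 := by
    have e1 : ‖fr x (a + z) - fr x a‖ ≤ ‖fr x (a + z) - fr x a - s * z‖ + ‖s * z‖ := by
      have := norm_add_le (fr x (a + z) - fr x a - s * z) (s * z)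
      rwa [sub_add_cancel] at this
    have e2 : ‖s * z‖ ≤ S₀ * ρ := by
      rw [norm_mul]
      exact mul_le_mul hL.s1 hz (norm_nonneg _) ((norm_nonneg _).trans hL.s1)
    have e3 : K * (‖z‖ * ‖z‖) ≤ K * ρ ^ 2 := by
      apply mul_le_mul_of_nonneg_left _ hK
      rw [pow_two]
      exact mul_le_mul hz hz (norm_nonneg _) hρ.le
    linarith
  have h2 : κ / 2 ≤ ‖fr x (a + z) - b‖ := by
    have := norm_sub_le (fr x (a + z) - b) (fr x (a + z) - fr x a)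
    rw [show fr x (a + z) - b - (fr x (a + z) - fr x a) = fr x a - b by ring] at this
    linarith
  have hpos : 0 < ‖fr x (a + z) - b‖ := by linarith
  have hne : fr x (a + z) - b ≠ 0 := norm_pos_iff.1 hpos
  have hval : sp x ((a + z : ℂ) : Sph) = ((fr x (a + z) : ℂ) : Sph) := sp_eval x _ hq
  refine ⟨t / (fr x (a + z) - b), gx_coe hx ht0 a b hval (sub_ne_zero.1 hne), ?_⟩
  rw [norm_div, div_le_iff₀ hpos]
  have : ρ / 2 * (κ / 2) ≤ ρ / 2 * ‖fr x (a + z) - b‖ := mul_le_mul_of_nonneg_left h2 (by linarith)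
  nlinarith

theorem far_att {d : ℕ} (hd : 1 ≤ d) {x : CV d} {a s : ℂ} {s₀ S₀ K r β ρ κ : ℝ} (hx : ND x)
    (hL : Loc x a s s₀ S₀ K r β) (hρ : 0 < ρ) (hρr : ρ ≤ r) (hK : 0 ≤ K)
    (hκ : S₀ * ρ + K * ρ ^ 2 ≤ κ / 2) (hκ0 : 0 < κ) {t b : ℂ} (ht0 : t ≠ 0)
    (hD : κ ≤ ‖fr x a - b‖) (ht : 4 * ‖t‖ ≤ κ * ρ) {z : ℂ} (hz : ‖z‖ < ρ) :
    Att (sp (gx x a b t)) ((a + z : ℂ) : Sph) := by
  refine sph_att (W := ball a ρ) (R := ‖a‖ + ρ) (r := ρ / 2)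
    (hol_sp hd (ND_gx hx ht0 a b)) isOpen_ball
    (by positivity) ?_ (by positivity) ?_ ?_
  · intro y hy
    rw [mem_ball, dist_eq_norm] at hy
    have h3 := norm_add_le (y - a) a
    rw [sub_add_cancel] at h3
    linarith
  · intro y hy
    rw [mem_ball, dist_eq_norm] at hy
    obtain ⟨u, h1, h2⟩ := far_step hx hL hρ hρr hK hκ hκ0 ht0 hD ht (z := y - a) hy.le
    rw [add_sub_cancel] at h1
    refine ⟨a + u, h1, fun y' hy' => ?_⟩
    rw [mem_ball, dist_eq_norm] at hy' ⊢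
    have h3 := norm_add_le (y' - (a + u)) u
    rw [show y' - (a + u) + u = y' - a by ring] at h3
    linarith
  · rw [mem_ball, dist_eq_norm, add_sub_cancel_left]
    exact hz

/-- **Hyperbolicity** outside the neighbourhoods of the segment and of the critical values. -/
theorem hyp_part {s₀ S₀ K r β : ℝ} (hs₀ : 0 < s₀) (hK : 0 ≤ K) (hr : 0 < r) (hβ : 0 < β)
    (hS : s₀ ≤ S₀) :
    ∃ C δ : ℝ, 0 < C ∧ 0 < δ ∧ ∀ (d : ℕ) (x : CV d) (a s t b : ℂ), 1 ≤ d → ND x →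
      Loc x a s s₀ S₀ K r β → 0 < ‖t‖ → ‖t‖ < δ →
      (∀ (μ : ℂ) (ρ : ℝ), μ ^ 2 = -(t * s) → |ρ| ≤ 2 → C * ‖t‖ ≤ ‖b - (fr x a + ρ * μ)‖) →
      (∀ c : Sph, ¬ LocInj (sp x) c → ∀ v : ℂ, sp x c = (v : Sph) → C * ‖t‖ ≤ ‖b - v‖) →
      Hyp (sp (gx x a b t)) := by
  have hS₀ : 0 < S₀ := hs₀.trans_le hS
  obtain ⟨M, hM⟩ : ∃ M : ℝ, M = 128 * K / s₀ + 8 / r + 32 * S₀ / β + 1 := ⟨_, rfl⟩
  have hM1 : 128 * K ≤ M * s₀ := by
    have : 128 * K / s₀ ≤ M := by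
      rw [hM]
      have : 0 ≤ 8 / r := by positivity
      have : 0 ≤ 32 * S₀ / β := by positivity
      linarith
    rwa [div_le_iff₀ hs₀] at this
  have hM2 : 8 ≤ M * r := by
    have : 8 / r ≤ M := by
      rw [hM]
      have : 0 ≤ 128 * K / s₀ := by positivity
      have : 0 ≤ 32 * S₀ / β := by positivity
      linarith
    rwa [div_le_iff₀ hr] at this
  have hM3 : 32 * S₀ ≤ M * β := by
    have : 32 * S₀ / β ≤ M := by
      rw [hM]
      have : 0 ≤ 128 * K / s₀ := by positivity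
      have : 0 ≤ 8 / r := by positivity
      linarith
    rwa [div_le_iff₀ hβ] at this
  have hM0 : 0 < M := by
    rw [hM]; positivity
  obtain ⟨κ, hκ⟩ : ∃ κ : ℝ, κ = min (s₀ / (8 * M)) (β / 2) := ⟨_, rfl⟩
  have hκ0 : 0 < κ := by rw [hκ]; positivity
  have hκ1 : κ ≤ s₀ / (8 * M) := by rw [hκ]; exact min_le_left _ _
  have hκ2 : κ ≤ β / 2 := by rw [hκ]; exact min_le_right _ _
  obtain ⟨ρ, hρ⟩ : ∃ ρ : ℝ, ρ = min (min r 1) (κ / (2 * (S₀ + K))) := ⟨_, rfl⟩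
  have hρ0 : 0 < ρ := by rw [hρ]; positivity
  have hρr : ρ ≤ r := by rw [hρ]; exact (min_le_left _ _).trans (min_le_left _ _)
  have hρ1 : ρ ≤ 1 := by rw [hρ]; exact (min_le_left _ _).trans (min_le_right _ _)
  have hρκ : S₀ * ρ + K * ρ ^ 2 ≤ κ / 2 := by
    have h1 : ρ ≤ κ / (2 * (S₀ + K)) := by rw [hρ]; exact min_le_right _ _
    rw [le_div_iff₀ (by positivity)] at h1
    have h2 : K * ρ ^ 2 ≤ K * ρ := by
      apply mul_le_mul_of_nonneg_left _ hK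
      nlinarith
    nlinarith
  refine ⟨max (2 * M) (2 / ρ), min (κ * ρ / 4) (s₀ / (64 * M ^ 2)), by positivity, by positivity,
    ?_⟩
  intro d x a s t b hd hx hL ht htδ hseg hcv
  have ht0 : t ≠ 0 := norm_pos_iff.1 ht
  have hs0 : 0 < ‖s‖ := hs₀.trans_le hL.s0
  have hs : s ≠ 0 := norm_pos_iff.1 hs0
  have ht1 : 4 * ‖t‖ ≤ κ * ρ := by
    have := (htδ.le).trans (min_le_left _ _)
    linarith
  have ht2 : ‖t‖ ≤ s₀ / (64 * M ^ 2) := (htδ.le).trans (min_le_right _ _)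
  intro c hc
  rw [locInj_gx hx ht0] at hc
  have hcont : Continuous (sp (gx x a b t)) := sp_cont (ND_gx hx ht0 a b)
  rcases le_or_gt κ ‖fr x a - b‖ with hfar | hnear
  · -- far from the segment
    have key : ∃ y : ℂ, sp (gx x a b t) c = ((a + y : ℂ) : Sph) ∧ ‖y‖ < ρ := by
      rcases eq_or_ne (sp x c) ∞ with h | h
      · refine ⟨0, ?_, by rw [norm_zero]; exact hρ0⟩
        rw [gx_inf hx ht0 a b h, add_zero]
      · obtain ⟨v, hv⟩ := OnePoint.ne_infty_iff_exists.1 h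
        have h1 := hcv c hc v hv.symm
        have h2 : 2 / ρ * ‖t‖ ≤ ‖v - b‖ := by
          rw [norm_sub_rev v b]
          exact (mul_le_mul_of_nonneg_right (le_max_right _ _) ht.le).trans h1
        have h3 : 0 < ‖v - b‖ := lt_of_lt_of_le (by positivity) h2
        have hvb : v ≠ b := by
          rintro rfl
          rw [sub_self, norm_zero] at h3
          exact lt_irrefl _ h3
        refine ⟨t / (v - b), gx_coe hx ht0 a b hv.symm hvb, ?_⟩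
        rw [norm_div, div_lt_iff₀ h3]
        have h4 : ρ * (2 / ρ * ‖t‖) ≤ ρ * ‖v - b‖ := mul_le_mul_of_nonneg_left h2 hρ0.le
        have h5 : ρ * (2 / ρ * ‖t‖) = 2 * ‖t‖ := by field_simp
        linarith
    obtain ⟨y, h1, h2⟩ := key
    apply att_of_iter hcont (m := 1)
    rw [Function.iterate_one, h1]
    exact far_att hd hx hL hρ0 hρr hK hρκ hκ0 ht0 hfar ht1 h2
  · -- near the segment
    obtain ⟨μ, hμ⟩ := IsAlgClosed.exists_pow_nat_eq (-(t * s)) (n := 2) (by norm_num)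
    have hX1 : ‖fr x a - b‖ / ‖s‖ + Real.sqrt (‖t‖ / ‖s‖) ≤ 1 / (4 * M) := by
      have e1 : ‖fr x a - b‖ / ‖s‖ ≤ 1 / (8 * M) := by
        rw [div_le_iff₀ hs0]
        calc ‖fr x a - b‖ ≤ κ := hnear.le
          _ ≤ s₀ / (8 * M) := hκ1
          _ = 1 / (8 * M) * s₀ := by ring
          _ ≤ 1 / (8 * M) * ‖s‖ := mul_le_mul_of_nonneg_left hL.s0 (by positivity)
      have e2 : Real.sqrt (‖t‖ / ‖s‖) ≤ 1 / (8 * M) := by
        rw [Real.sqrt_le_left (by positivity), div_le_iff₀ hs0]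
        calc ‖t‖ ≤ s₀ / (64 * M ^ 2) := ht2
          _ = (1 / (8 * M)) ^ 2 * s₀ := by field_simp; norm_num
          _ ≤ (1 / (8 * M)) ^ 2 * ‖s‖ := mul_le_mul_of_nonneg_left hL.s0 (by positivity)
      have e3 : 1 / (8 * M) + 1 / (8 * M) = 1 / (4 * M) := by field_simp; norm_num
      linarith
    obtain ⟨p, m, hP, hD, htt⟩ := pair_of_dist (K := K) (M := M) (X₀ := 1 / (4 * M))
      (D := fr x a - b) hs ht0 hK
      (hM1.trans (mul_le_mul_of_nonneg_left hL.s0 hM0.le)) hM0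
      (le_of_eq (by field_simp)) hX1 hμ (by
        intro ρ' hρ'
        have h1 := hseg μ (-ρ') hμ (by rwa [abs_neg])
        have h2 : ‖b - (fr x a + ((-ρ' : ℝ) : ℂ) * μ)‖ = ‖fr x a - b - ρ' * μ‖ := by
          rw [norm_sub_rev]
          congr 1
          push_cast; ring
        rw [h2] at h1
        exact (mul_le_mul_of_nonneg_right (le_max_left _ _) ht.le).trans h1)
    obtain ⟨y, h1, h2⟩ := crit_near hx hL ht0 hP htt hβ hM3 (hnear.le.trans hκ2) hc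
    apply att_of_iter hcont (m := 1)
    rw [Function.iterate_one, h1]
    exact near_att hd hx hL ht0 hP hD htt hr hM2 h2

end Pool.Agent.Helper29.MS
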