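import Mathlib
import Pool.Agent.Helper29.MS.Hyp
import Pool.Graph.R_pool_sql_team_seeded_1acbe0a2.Y334.RM.Crit

/-! Uniform local data at the points of a compact set. -/

set_option autoImplicit false

open Topology Filter Metric Set Polynomial
open scoped OnePoint
open Pool.Agent.H790R3.RB (CV hF ND sp pol hc pr)
open Pool.Agent.H790R3.RB.SP (pr_zero pr_ne pr_eq_iff pr_hc sp_pr sp_cont)
open Pool.Agent.H790R3.RB.PQ (hF_one hF_inf part1 sp_eval pol_natDegree)
open Pool.Agent.R239.Fat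
open Pool.Agent.Y334.RM (LI li_rat wron good_rat)
open Pool.Agent.Helper114.Herman (IsRat)

namespace Pool.Agent.Helper29.MS

/-- the derivative of the rational function -/
noncomputable def dr {d : ℕ} (x : CV d) (z : ℂ) : ℂ :=
  ((derivative (pol x 0)).eval z * (pol x 1).eval z -
    (pol x 0).eval z * (derivative (pol x 1)).eval z) / (pol x 1).eval z ^ 2

theorem fr_deriv {d : ℕ} (x : CV d) {z : ℂ} (hz : (pol x 1).eval z ≠ 0) :
    HasDerivAt (fr x) (dr x z) z :=
  ((pol x 0).hasDerivAt z).div ((pol x 1).hasDerivAt z) hz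

theorem isRat_sp {d : ℕ} (hd : 1 ≤ d) {x : CV d} (hx : ND x) : IsRat (sp x) (pol x 0) (pol x 1) := by
  obtain ⟨hcop, hmax⟩ := part1 hd x hx
  refine ⟨sp_cont hx, hcop, ?_, fun z hz => sp_eval x z hz⟩
  intro h
  rw [h] at hcop hmax
  have := natDegree_eq_zero_of_isUnit (isCoprime_zero_right.1 hcop)
  rw [this] at hmax
  simp at hmax
  omega

theorem crit_of_dr {d : ℕ} (hd : 1 ≤ d) {x : CV d} (hx : ND x) {z : ℂ}
    (hz : (pol x 1).eval z ≠ 0) (h : dr x z = 0) : ¬ LocInj (sp x) (z : Sph) := by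
  intro hli
  obtain ⟨hcop, hmax⟩ := part1 hd x hx
  have h1 := (li_rat (isRat_sp hd hx) (by omega) z).1 hli
  apply h1
  unfold dr at h
  rw [div_eq_zero_iff] at h
  have h2 := h.resolve_right (pow_ne_zero 2 hz)
  unfold wron
  simp only [eval_sub, eval_mul]
  exact h2

theorem exists_loc {d : ℕ} (hd : 1 ≤ d) {x : CV d} (hx : ND x) {A : Set ℂ} (hA : IsCompact A)
    (hq : ∀ a ∈ A, (pol x 1).eval a ≠ 0)
    (hv : ∀ a ∈ A, ∀ c : Sph, ¬ LocInj (sp x) c → sp x c ≠ ((fr x a : ℂ) : Sph)) :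
    ∃ s₀ S₀ K r β : ℝ, 0 < s₀ ∧ 0 ≤ K ∧ 0 < r ∧ 0 < β ∧ s₀ ≤ S₀ ∧
      (∀ a ∈ A, ∀ z : ℂ, ‖z‖ ≤ r → ‖dr x (a + z) - dr x a‖ ≤ K * ‖z‖) ∧
      ∀ a ∈ A, Loc x a (dr x a) s₀ S₀ K r β := by
  have hUo : IsOpen {z : ℂ | (pol x 1).eval z ≠ 0} :=
    isOpen_ne_fun (pol x 1).continuous continuous_const
  obtain ⟨r, hr, hrU⟩ := hA.exists_cthickening_subset_open hUo hq
  have hBc : IsCompact (cthickening r A) := hA.cthickening
  obtain ⟨N, hN⟩ : ∃ N : ℂ[X], N = derivative (pol x 0) * pol x 1 - pol x 0 * derivative (pol x 1) :=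
    ⟨_, rfl⟩
  have hdr : ∀ z, dr x z = N.eval z / ((pol x 1) ^ 2).eval z := by
    intro z
    unfold dr
    rw [hN]
    simp only [eval_sub, eval_mul, eval_pow]
  obtain ⟨f2, hf2⟩ : ∃ f2 : ℂ → ℂ, f2 = fun z =>
      ((derivative N).eval z * ((pol x 1) ^ 2).eval z - N.eval z * (derivative ((pol x 1) ^ 2)).eval z) /
        ((pol x 1) ^ 2).eval z ^ 2 := ⟨_, rfl⟩
  have hq2 : ∀ z, (pol x 1).eval z ≠ 0 → ((pol x 1) ^ 2).eval z ≠ 0 := by
    intro z hz
    rw [eval_pow]; exact pow_ne_zero 2 hz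
  have hdd : ∀ z, (pol x 1).eval z ≠ 0 → HasDerivAt (dr x) (f2 z) z := by
    intro z hz
    have h1 : dr x = fun z => N.eval z / ((pol x 1) ^ 2).eval z := funext hdr
    rw [h1, hf2]
    exact (N.hasDerivAt z).div (((pol x 1) ^ 2).hasDerivAt z) (hq2 z hz)
  have hf2c : ContinuousOn f2 (cthickening r A) := by
    intro z hz
    have h1 := hq2 z (hrU hz)
    rw [hf2]
    exact (((derivative N).continuous.mul ((pol x 1) ^ 2).continuous).sub
      (N.continuous.mul (derivative ((pol x 1) ^ 2)).continuous)).continuousWithinAt.div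
      (((pol x 1) ^ 2).continuous.pow 2).continuousWithinAt (pow_ne_zero 2 h1)
  obtain ⟨K, hK⟩ := hBc.exists_bound_of_continuousOn hf2c
  have hmemB : ∀ a ∈ A, ∀ z : ℂ, ‖z‖ ≤ r → a + z ∈ cthickening r A := by
    intro a ha z hz
    refine closedBall_subset_cthickening ha r ?_
    rw [mem_closedBall, dist_eq_norm, add_sub_cancel_left]
    exact hz
  have hdK : ∀ a ∈ A, ∀ z : ℂ, ‖z‖ ≤ r → ‖dr x (a + z) - dr x a‖ ≤ max K 0 * ‖z‖ := by
    intro a ha z hz
    have h1 := (convex_closedBall a r).norm_image_sub_le_of_norm_hasDerivWithin_le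
      (f := dr x) (f' := f2) (C := max K 0) (x := a) (y := a + z)
      (fun y hy => (hdd y (hrU (closedBall_subset_cthickening ha r hy))).hasDerivWithinAt)
      (fun y hy => (hK y (closedBall_subset_cthickening ha r hy)).trans (le_max_left _ _))
      (mem_closedBall_self hr.le)
      (by rw [mem_closedBall, dist_eq_norm, add_sub_cancel_left]; exact hz)
    rwa [add_sub_cancel_left] at h1
  -- bounds of the derivative
  have hsub : A ⊆ {z : ℂ | (pol x 1).eval z ≠ 0} := hq
  have hdc : ContinuousOn (fun z => ‖dr x z‖) A := fun z hz =>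
    (hdd z (hq z hz)).continuousAt.norm.continuousWithinAt
  obtain ⟨s₀, hs₀, hs₀'⟩ := hA.exists_forall_le' hdc (a := 0) (fun a ha => by
    rw [norm_pos_iff]
    intro h
    exact hv a ha (a : Sph) (crit_of_dr hd hx (hq a ha) h) (sp_eval x a (hq a ha)))
  obtain ⟨S₁, hS₁⟩ := hA.exists_bound_of_continuousOn hdc
  -- distance to the critical values
  obtain ⟨E, hE⟩ := (hol_sp hd hx).fcv
  have hfc : ContinuousOn (fr x) A := fun z hz =>
    (fr_deriv x (hq z hz)).continuousAt.continuousWithinAt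
  have hVfin : {v : ℂ | ∃ c : Sph, ¬ LocInj (sp x) c ∧ sp x c = (v : Sph)}.Finite := by
    refine Set.Finite.of_finite_image (f := fun v : ℂ => (v : Sph)) (E.finite_toSet.subset ?_)
      OnePoint.coe_injective.injOn
    rintro _ ⟨v, ⟨c, hc, hcv⟩, rfl⟩
    simp only
    rw [← hcv]
    exact hE c hc
  have hdisj : Disjoint (fr x '' A) {v : ℂ | ∃ c : Sph, ¬ LocInj (sp x) c ∧ sp x c = (v : Sph)} := by
    rw [Set.disjoint_left]
    rintro _ ⟨a, ha, rfl⟩ ⟨c, hc, hcv⟩
    exact hv a ha c hc hcv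
  obtain ⟨β, hβ, hβd⟩ := hdisj.exists_thickenings (hA.image_of_continuousOn hfc) hVfin.isClosed
  refine ⟨s₀, max S₁ s₀, max K 0, r, β, hs₀, le_max_right _ _, hr, hβ, le_max_right _ _, hdK, ?_⟩
  intro a ha
  refine ⟨hs₀' a ha, ?_, fun z hz => hrU (hmemB a ha z hz), ?_, ?_⟩
  · have := hS₁ a ha
    rw [norm_norm] at this
    exact this.trans (le_max_left _ _)
  · intro z w hz hw
    set R := max ‖z‖ ‖w‖ with hR
    have hRr : R ≤ r := max_le hz hw
    have hRs : R ≤ ‖z‖ + ‖w‖ := max_le (by linarith [norm_nonneg w]) (by linarith [norm_nonneg z])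
    have h1 := (convex_closedBall (0 : ℂ) R).norm_image_sub_le_of_norm_hasDerivWithin_le
      (f := fun u => fr x (a + u) - dr x a * u) (f' := fun u => dr x (a + u) - dr x a)
      (C := max K 0 * (‖z‖ + ‖w‖)) (x := w) (y := z)
      (fun y hy => by
        rw [mem_closedBall_zero_iff] at hy
        have h2 := fr_deriv x (hrU (hmemB a ha y (hy.trans hRr)))
        have h3 : HasDerivAt (fun u => fr x (a + u)) (dr x (a + y)) y := h2.comp_const_add a y
        have h4 := h3.sub ((hasDerivAt_id y).const_mul (dr x a))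
        rw [mul_one] at h4
        exact h4.hasDerivWithinAt)
      (fun y hy => by
        rw [mem_closedBall_zero_iff] at hy
        refine (hdK a ha y (hy.trans hRr)).trans ?_
        exact mul_le_mul_of_nonneg_left (hy.trans hRs) (le_max_right _ _))
      (by rw [mem_closedBall_zero_iff]; exact le_max_right _ _)
      (by rw [mem_closedBall_zero_iff]; exact le_max_left _ _)
    have h2 : fr x (a + z) - fr x (a + w) - dr x a * (z - w) =
        (fr x (a + z) - dr x a * z) - (fr x (a + w) - dr x a * w) := by ring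
    rw [h2]
    refine h1.trans (le_of_eq ?_)
    ring
  · intro c hc v hcv
    by_contra hcon
    push Not at hcon
    have h1 : v ∈ thickening β (fr x '' A) := by
      rw [mem_thickening_iff]
      exact ⟨fr x a, mem_image_of_mem _ ha, by rw [dist_eq_norm]; exact hcon⟩
    exact Set.disjoint_left.1 hβd h1 (self_subset_thickening hβ _ ⟨c, hc, hcv⟩)

end Pool.Agent.Helper29.MS
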