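import Mathlib
import Pool.Agent.Helper29.MS.Data
import Pool.Graph.R_seed8.R239.Fat.T14
import Pool.Graph.R_pool_sql_team_seeded_1acbe0a2.Results.MP_8f2e1c_an.StableRational

/-! Stability of critical orbits of hyperbolic maps along paths of parameters. -/

set_option autoImplicit false

open Topology Filter Metric Set Polynomial
open scoped OnePoint
open Pool.Agent.H790R3.RB (CV hF ND sp pol hc pr)
open Pool.Agent.H790R3.RB.SP (pr_zero pr_ne pr_eq_iff pr_hc sp_pr sp_cont)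
open Pool.Agent.H790R3.RB.PQ (hF_one hF_inf part1 sp_eval pol_natDegree)
open Pool.Agent.R239.Fat
open Pool.Agent.Y334.FS (sphMet dist_coe_le coe_dist)

namespace Pool.Agent.Helper29.MS

theorem gx_cont {d : ℕ} (x : CV d) (a t : ℂ) : Continuous (fun b : ℂ => gx x a b t) := by
  refine continuous_pi fun r => ?_
  obtain ⟨i, j⟩ := r
  by_cases hr : i = 0
  · subst hr
    simp only [gx_zero]
    fun_prop
  · have hi : i = 1 := by omega
    subst hi
    simp only [gx_one]
    fun_prop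

theorem cont_param {d : ℕ} {x : CV d} (hx : ND x) {t : ℂ} (ht : t ≠ 0) (a : ℂ) :
    Continuous (fun q : ℂ × Sph => sp (gx x a q.1 t) q.2) := by
  rw [continuous_iff_continuousAt]
  intro q
  have hnd := ND_gx hx ht a q.1
  have h1 := jc (x₀ := gx x a q.1 t) (s₀ := q.2) (fun h => (pr_hc q.2).2 (hnd _ h))
  have h3 : Tendsto (fun q' : ℂ × Sph => gx x a q'.1 t) (𝓝 q) (𝓝 (gx x a q.1 t)) :=
    ((gx_cont x a t).comp continuous_fst).tendsto q
  have h4 : Tendsto (fun q' : ℂ × Sph => gx x a q'.1 t) (𝓝 q)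
      (𝓝[{x | ND x}] (gx x a q.1 t)) :=
    tendsto_nhdsWithin_iff.2 ⟨h3, Eventually.of_forall fun q' => ND_gx hx ht a q'.1⟩
  have h2 := h4.prodMk (continuous_snd.tendsto q)
  have h5 : Tendsto ((fun q : CV d × Sph => sp q.1 q.2) ∘ fun q' : ℂ × Sph =>
      (gx x a q'.1 t, q'.2)) (𝓝 q) (𝓝 (pr (hF (gx x a q.1 t) (hc q.2)))) := h1.comp h2
  exact h5

theorem cont_iter {d : ℕ} {x : CV d} (hx : ND x) {t : ℂ} (ht : t ≠ 0) (a : ℂ) (c : Sph) (k : ℕ) :
    Continuous (fun b : ℂ => (sp (gx x a b t))^[k] c) := by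
  induction k with
  | zero => exact continuous_const
  | succ k ih =>
    have h : Continuous (fun b : ℂ => ((b, (sp (gx x a b t))^[k] c) : ℂ × Sph)) :=
      continuous_id.prodMk ih
    have h2 : Continuous ((fun q : ℂ × Sph => sp (gx x a q.1 t) q.2) ∘
        fun b : ℂ => ((b, (sp (gx x a b t))^[k] c) : ℂ × Sph)) := (cont_param hx ht a).comp h
    have e : (fun b : ℂ => (sp (gx x a b t))^[k + 1] c) =
        (fun q : ℂ × Sph => sp (gx x a q.1 t) q.2) ∘
          fun b : ℂ => ((b, (sp (gx x a b t))^[k] c) : ℂ × Sph) := by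
      funext b
      exact Function.iterate_succ_apply' _ _ _
    rw [e]
    exact h2

attribute [local instance] Pool.Agent.Y334.FS.sphMet

open Pool.Agent.Results.MP_8f2e1c_an.StableRational in
theorem rat_sp {d : ℕ} (hd : 2 ≤ d) {x : CV d} (hx : ND x) : Rat d (sp x) := by
  obtain ⟨hcop, hmax⟩ := part1 (by omega) x hx
  exact ⟨d, pol x 0, pol x 1, hd, le_rfl, hcop, hmax, sp_cont hx, fun z hz => sp_eval x z hz⟩

open Pool.Agent.Results.MP_8f2e1c_an.StableRational in
theorem fibre_id (F : Sph → Sph) (k : ℕ) (z : Sph) :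
    fibre (id : Unit → Unit) (fun _ => F) k () z = F^[k] z := by
  induction k with
  | zero => rfl
  | succ k ih =>
    rw [Function.iterate_succ_apply', ← ih]
    rfl

open Pool.Agent.Results.MP_8f2e1c_an.StableRational in
/-- consequences of hyperbolicity -/
theorem hyp_cons {d : ℕ} (hd : 2 ≤ d) {x : CV d} (hx : ND x) (hH : Hyp (sp x)) :
    (∃ r C lam : ℝ, 0 < r ∧ 0 < lam ∧ lam < 1 ∧ ∀ c : Sph, ¬ LocInj (sp x) c → ∀ z : Sph,
      Tendsto (fun k : ℕ => (sp x)^[k] c) atTop (𝓝 z) → ∀ u u' : Sph, dist u z < r →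
      dist u' z < r → ∀ k : ℕ, dist ((sp x)^[k] u) ((sp x)^[k] u') ≤ C * lam ^ k * dist u u') ∧
    ∀ η : ℝ, 0 < η → ∃ δ : ℝ, 0 < δ ∧ ∀ g : Sph → Sph, (∀ z, dist (g z) (sp x z) < δ) →
      ∀ c : Sph, ¬ LocInj (sp x) c → ∀ k : ℕ, dist (g^[k] c) ((sp x)^[k] c) < η := by
  obtain ⟨-, -, hIII, hV⟩ := result
  obtain ⟨r, C, lam, hr, hl0, hl1, hF⟩ := (hV d (sp x) (rat_sp hd hx)).1 hH
  refine ⟨⟨r, C, lam, hr, hl0, hl1, ?_⟩, ?_⟩
  · intro c hc z hz u u' hu hu' k
    have hmem : ((), z) ∈ closure (postCritical (id : Unit → Unit) (fun _ => sp x)) := by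
      refine mem_closure_of_tendsto (b := atTop)
        (f := fun k : ℕ => (((), (sp x)^[k] c) : Unit × Sph)) ?_ ?_
      · exact tendsto_const_nhds.prodMk_nhds hz
      · filter_upwards [eventually_ge_atTop 1] with k hk
        exact ⟨(), c, k, hk, hc, by rw [fibre_id]⟩
    obtain ⟨W, hW, h1⟩ := hF _ hmem
    have h2 := h1 () (mem_of_mem_nhds hW) u u' hu hu' k
    rw [fibre_id, fibre_id] at h2
    exact h2
  · intro η hη
    obtain ⟨δ, hδ, h1⟩ := hIII r C lam η hr hl0 hl1 hη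
    refine ⟨δ, hδ, fun g hg c hc k => ?_⟩
    have h2 := h1 Unit id (fun _ => sp x) hF (fun _ => g) (fun _ z => hg z) () c hc k
    rw [fibre_id, fibre_id] at h2
    exact h2

/-- uniform closeness of the maps -/
theorem unif_param {d : ℕ} {x : CV d} (hx : ND x) {t : ℂ} (ht : t ≠ 0) (a b₀ : ℂ) {ε : ℝ}
    (hε : 0 < ε) :
    ∀ᶠ b in 𝓝 b₀, ∀ z : Sph, dist (sp (gx x a b t) z) (sp (gx x a b₀ t) z) < ε := by
  have h1 : ∀ z ∈ (univ : Set Sph), ∀ᶠ q : ℂ × Sph in 𝓝 (b₀, z),
      dist (sp (gx x a q.1 t) q.2) (sp (gx x a b₀ t) q.2) < ε := by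
    intro z _
    have h2 : Continuous (fun q : ℂ × Sph =>
        dist (sp (gx x a q.1 t) q.2) (sp (gx x a b₀ t) q.2)) :=
      (cont_param hx ht a).dist ((sp_cont (ND_gx hx ht a b₀)).comp continuous_snd)
    have h3 := h2.tendsto (b₀, z)
    simp only [dist_self] at h3
    exact h3.eventually (gt_mem_nhds hε)
  have h2 := (isCompact_univ (X := Sph)).eventually_forall_of_forall_eventually
    (P := fun b z => dist (sp (gx x a b t) z) (sp (gx x a b₀ t) z) < ε) h1
  filter_upwards [h2] with b hb z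
  exact hb z (mem_univ z)

/-- the critical orbit follows when the parameter changes -/
theorem follow_param {d : ℕ} (hd : 2 ≤ d) {x : CV d} (hx : ND x) {t : ℂ} (ht : t ≠ 0) (a b₀ : ℂ)
    (hH : Hyp (sp (gx x a b₀ t))) {c : Sph} (hc : ¬ LocInj (sp x) c) {η : ℝ} (hη : 0 < η) :
    ∀ᶠ b in 𝓝 b₀, ∀ k : ℕ,
      dist ((sp (gx x a b t))^[k] c) ((sp (gx x a b₀ t))^[k] c) < η := by
  obtain ⟨-, h1⟩ := hyp_cons hd (ND_gx hx ht a b₀) hH
  obtain ⟨δ, hδ, h2⟩ := h1 η hη
  filter_upwards [unif_param hx ht a b₀ hδ] with b hb k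
  exact h2 _ hb c (by rw [locInj_gx hx ht]; exact hc) k

section plane

/-- the map in the plane -/
noncomputable def gam {d : ℕ} (x : CV d) (a t b w : ℂ) : ℂ := a + t / (fr x w - b)

/-- its derivative -/
noncomputable def gamd {d : ℕ} (x : CV d) (t b w : ℂ) : ℂ := -(t * dr x w) / (fr x w - b) ^ 2

theorem gam_spec {d : ℕ} {x : CV d} (hx : ND x) {t : ℂ} (ht : t ≠ 0) (a b : ℂ) {w : ℂ}
    (hq : (pol x 1).eval w ≠ 0) (hb : fr x w ≠ b) :
    sp (gx x a b t) (w : Sph) = ((gam x a t b w : ℂ) : Sph) :=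
  gx_coe hx ht a b (sp_eval x w hq) hb

theorem gam_deriv {d : ℕ} (x : CV d) (a t b : ℂ) {w : ℂ}
    (hq : (pol x 1).eval w ≠ 0) (hb : fr x w ≠ b) :
    HasDerivAt (gam x a t b) (gamd x t b w) w := by
  have h1 := (fr_deriv x hq).sub_const b
  have h2 := (hasDerivAt_const w t).div h1 (sub_ne_zero.2 hb)
  have h3 := h2.const_add a
  have h4 : (0 * (fr x w - b) - t * dr x w) / (fr x w - b) ^ 2 = gamd x t b w := by
    unfold gamd; ring
  rw [h4] at h3
  exact h3

/-- At an attracting fixed point which attracts a critical point of a hyperbolic map the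
multiplier is smaller than one in modulus. -/
theorem mult_lt {d : ℕ} (hd : 2 ≤ d) {x : CV d} (hx : ND x) {t : ℂ} (ht : t ≠ 0) (a b : ℂ)
    (hH : Hyp (sp (gx x a b t))) {c : Sph} (hc : ¬ LocInj (sp x) c) {z : ℂ}
    (hq : (pol x 1).eval z ≠ 0) (hb : fr x z ≠ b) (hfix : gam x a t b z = z)
    (hz : Tendsto (fun k : ℕ => (sp (gx x a b t))^[k] c) atTop (𝓝 (z : Sph))) :
    ‖gamd x t b z‖ < 1 := by
  set F := sp (gx x a b t) with hF
  set γ := gam x a t b with hγ
  obtain ⟨⟨r, C, lam, hr, hl0, hl1, h1⟩, -⟩ := hyp_cons hd (ND_gx hx ht a b) hH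
  have h2 := h1 c (by rw [locInj_gx hx ht]; exact hc) z hz
  have hder := gam_deriv x a t b hq hb
  rw [← hγ] at hder
  have hcont : ContinuousAt γ z := hder.continuousAt
  -- the map is planar near `z`
  have hUn : ∀ᶠ w : ℂ in 𝓝 z, F (w : Sph) = ((γ w : ℂ) : Sph) := by
    have e1 : ∀ᶠ w in 𝓝 z, (pol x 1).eval w ≠ 0 := (pol x 1).continuous.continuousAt.eventually_ne hq
    have e2 : ∀ᶠ w in 𝓝 z, fr x w ≠ b := (fr_deriv x hq).continuousAt.eventually_ne hb
    filter_upwards [e1, e2] with w hw1 hw2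
    exact gam_spec hx ht a b hw1 hw2
  have hitc : ∀ k : ℕ, ContinuousAt (γ^[k]) z ∧ γ^[k] z = z := by
    intro k
    have e := Function.iterate_fixed hfix k
    exact ⟨(HasDerivAt.iterate z hder hfix k).continuousAt, e⟩
  have hit : ∀ k : ℕ, ∀ᶠ w : ℂ in 𝓝 z, F^[k] (w : Sph) = ((γ^[k] w : ℂ) : Sph) := by
    intro k
    induction k with
    | zero => exact Eventually.of_forall fun w => rfl
    | succ k ih =>
      have e1 : ∀ᶠ w : ℂ in 𝓝 z, F ((γ^[k] w : ℂ) : Sph) = ((γ (γ^[k] w) : ℂ) : Sph) := by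
        have := (hitc k).1.tendsto
        rw [(hitc k).2] at this
        exact this.eventually hUn
      filter_upwards [ih, e1] with w hw1 hw2
      rw [Function.iterate_succ_apply', Function.iterate_succ_apply', hw1, hw2]
  have hFz : ∀ k : ℕ, F^[k] (z : Sph) = (z : Sph) := by
    intro k
    have := (hit k).self_of_nhds
    rw [this, (hitc k).2]
  -- the bound
  set R := ‖z‖ + 1 with hR
  set B := (1 + R) * (1 + R ^ 2) * (|C| * 5) with hB
  have hB0 : 0 ≤ B := by
    have : 0 ≤ R := by rw [hR]; positivity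
    rw [hB]; positivity
  have hbound : ∀ k : ℕ, ‖gamd x t b z‖ ^ k ≤ B * lam ^ k := by
    intro k
    rw [← norm_pow]
    refine (HasDerivAt.iterate z hder hfix k).le_of_lip' (by positivity) ?_
    have e1 : ∀ᶠ w in 𝓝 z, ‖γ^[k] w‖ ≤ R := by
      have h3 := (hitc k).1.norm
      have h4 : ‖γ^[k] z‖ < R := by rw [(hitc k).2, hR]; linarith
      filter_upwards [h3.tendsto.eventually (gt_mem_nhds h4)] with w hw using hw.le
    have e2 : ∀ᶠ w : ℂ in 𝓝 z, dist (w : Sph) (z : Sph) < r := by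
      have h3 : Continuous (fun w : ℂ => dist (w : Sph) (z : Sph)) :=
        OnePoint.continuous_coe.dist continuous_const
      have h4 := h3.tendsto z
      simp only [dist_self] at h4
      exact h4.eventually (gt_mem_nhds hr)
    filter_upwards [hit k, e1, e2] with w hw1 hw2 hw3
    rw [(hitc k).2]
    have h5 := h2 (w : Sph) (z : Sph) hw3 (by rw [dist_self]; exact hr) k
    rw [hFz k] at h5
    have h5' : dist (((γ^[k] w : ℂ)) : Sph) (z : Sph) ≤ C * lam ^ k * dist (w : Sph) (z : Sph) := by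
      rw [← hw1]; exact h5
    have h6 := coe_dist hw2 (show ‖z‖ ≤ R by rw [hR]; linarith)
    have h7 := dist_coe_le w z
    have hR0 : 0 ≤ R := by rw [hR]; positivity
    have hl : 0 ≤ lam ^ k := pow_nonneg hl0.le k
    calc ‖γ^[k] w - z‖ ≤ (1 + R) * (1 + R ^ 2) * dist (((γ^[k] w : ℂ)) : Sph) (z : Sph) := h6
      _ ≤ (1 + R) * (1 + R ^ 2) * (|C| * lam ^ k * (5 * ‖w - z‖)) := by
          apply mul_le_mul_of_nonneg_left _ (by positivity)
          refine h5'.trans ?_
          have e3 : C * lam ^ k ≤ |C| * lam ^ k := mul_le_mul_of_nonneg_right (le_abs_self C) hl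
          calc C * lam ^ k * dist (w : Sph) (z : Sph) ≤ |C| * lam ^ k * dist (w : Sph) (z : Sph) :=
                mul_le_mul_of_nonneg_right e3 dist_nonneg
            _ ≤ _ := mul_le_mul_of_nonneg_left h7 (by positivity)
      _ = B * lam ^ k * ‖w - z‖ := by rw [hB]; ring
  -- conclusion
  by_contra hcon
  push Not at hcon
  have h3 : Tendsto (fun k : ℕ => B * lam ^ k) atTop (𝓝 (B * 0)) :=
    (tendsto_pow_atTop_nhds_zero_of_lt_one hl0.le hl1).const_mul B
  rw [mul_zero] at h3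
  obtain ⟨k, hk⟩ := (h3.eventually (gt_mem_nhds one_pos)).exists
  have h4 := hbound k
  have h5 : (1 : ℝ) ≤ ‖gamd x t b z‖ ^ k := one_le_pow₀ hcon
  linarith

end plane

end Pool.Agent.Helper29.MS
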