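import Mathlib
import Pool.Agent.Helper29.MS.Stab

/-! Paths of parameters contain maps which are not hyperbolic. -/

set_option autoImplicit false

open Topology Filter Metric Set Polynomial
open scoped OnePoint
open Pool.Agent.H790R3.RB (CV hF ND sp pol hc pr)
open Pool.Agent.H790R3.RB.SP (pr_zero pr_ne pr_eq_iff pr_hc sp_pr sp_cont)
open Pool.Agent.H790R3.RB.PQ (hF_one hF_inf part1 sp_eval pol_natDegree)
open Pool.Agent.R239.Fat
open Pool.Agent.Y334.FS (sphMet dist_coe_le coe_dist)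

namespace Pool.Agent.Helper29.MS

/-- the parameter for which `a + ξ` is a fixed point -/
noncomputable def bb {d : ℕ} (x : CV d) (a t ξ : ℂ) : ℂ := fr x (a + ξ) - t / ξ

theorem bb_ne {d : ℕ} (x : CV d) (a : ℂ) {t ξ : ℂ} (ht : t ≠ 0) (hξ : ξ ≠ 0) :
    fr x (a + ξ) ≠ bb x a t ξ := by
  unfold bb
  intro h
  have h1 : t / ξ = 0 := by linear_combination h
  exact div_ne_zero ht hξ h1

theorem fix_bb {d : ℕ} (x : CV d) (a : ℂ) {t ξ : ℂ} (ht : t ≠ 0) (_hξ : ξ ≠ 0) :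
    gam x a t (bb x a t ξ) (a + ξ) = a + ξ := by
  unfold gam bb
  rw [sub_sub_cancel, div_div_eq_mul_div, mul_div_cancel_left₀ ξ ht]

theorem bb_cont {d : ℕ} {x : CV d} {a t ξ : ℂ} (hξ : ξ ≠ 0)
    (hq : (pol x 1).eval (a + ξ) ≠ 0) : ContinuousAt (fun u => bb x a t u) ξ := by
  unfold bb
  have h1 : ContinuousAt (fun u => fr x (a + u)) ξ :=
    ContinuousAt.comp (g := fr x) (f := fun u => a + u) (fr_deriv x hq).continuousAt
      (continuous_const.add continuous_id).continuousAt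
  exact h1.sub (continuousAt_const.div continuousAt_id hξ)

/-- local attraction -/
theorem loc_att {G : Sph → Sph} {γ : ℂ → ℂ} {z : ℂ} {ρ L : ℝ} (hL0 : 0 ≤ L) (hL : L < 1)
    (h1 : ∀ w ∈ ball z ρ, G (w : Sph) = ((γ w : ℂ) : Sph))
    (h2 : ∀ w ∈ ball z ρ, ‖γ w - z‖ ≤ L * ‖w - z‖) {w : ℂ} (hw : w ∈ ball z ρ) :
    Tendsto (fun k : ℕ => G^[k] (w : Sph)) atTop (𝓝 (z : Sph)) := by
  have key : ∀ k : ℕ, ∃ u ∈ ball z ρ, G^[k] (w : Sph) = (u : Sph) ∧ ‖u - z‖ ≤ L ^ k * ‖w - z‖ := by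
    intro k
    induction k with
    | zero => exact ⟨w, hw, rfl, by simp⟩
    | succ k ih =>
      obtain ⟨u, hu, e1, e2⟩ := ih
      have e3 := h2 u hu
      have e4 : ‖γ u - z‖ ≤ ‖u - z‖ := e3.trans (by nlinarith [norm_nonneg (u - z)])
      refine ⟨γ u, ?_, ?_, ?_⟩
      · rw [mem_ball, dist_eq_norm] at hu ⊢
        exact lt_of_le_of_lt e4 hu
      · rw [Function.iterate_succ_apply', e1, h1 u hu]
      · calc ‖γ u - z‖ ≤ L * ‖u - z‖ := e3
          _ ≤ L * (L ^ k * ‖w - z‖) := mul_le_mul_of_nonneg_left e2 hL0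
          _ = _ := by ring
  choose u hu e1 e2 using key
  have h3 : Tendsto u atTop (𝓝 z) := by
    rw [tendsto_iff_norm_sub_tendsto_zero]
    refine squeeze_zero (fun _ => norm_nonneg _) e2 ?_
    have := (tendsto_pow_atTop_nhds_zero_of_lt_one hL0 hL).mul_const ‖w - z‖
    rwa [zero_mul] at this
  exact ((OnePoint.continuous_coe.tendsto z).comp h3).congr fun k => (e1 k).symm

theorem tendsto_shift {G : Sph → Sph} {c z : Sph} {m : ℕ}
    (h : Tendsto (fun k : ℕ => G^[k] (G^[m] c)) atTop (𝓝 z)) :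
    Tendsto (fun k : ℕ => G^[k] c) atTop (𝓝 z) := by
  rw [← tendsto_add_atTop_iff_nat m]
  refine h.congr fun k => ?_
  rw [← Function.iterate_add_apply]

attribute [local instance] Pool.Agent.Y334.FS.sphMet

/-- If all the maps of a path are hyperbolic then an attracting fixed point which attracts a
critical point remains attracting. -/
theorem path_hyp {d : ℕ} (hd : 2 ≤ d) {x : CV d} (hx : ND x) {a t : ℂ} (ht : t ≠ 0) {c : Sph}
    (hc : ¬ LocInj (sp x) c) {ξ : ℝ → ℂ} (hξ : Continuous ξ) {α β : ℝ} (hαβ : α ≤ β)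
    (hne : ∀ τ ∈ Icc α β, ξ τ ≠ 0) (hq : ∀ τ ∈ Icc α β, (pol x 1).eval (a + ξ τ) ≠ 0)
    (hH : ∀ τ ∈ Icc α β, Hyp (sp (gx x a (bb x a t (ξ τ)) t)))
    (h0 : Tendsto (fun k : ℕ => (sp (gx x a (bb x a t (ξ α)) t))^[k] c) atTop
      (𝓝 ((a + ξ α : ℂ) : Sph))) :
    ‖gamd x t (bb x a t (ξ β)) (a + ξ β)‖ < 1 := by
  have hbc : ∀ τ ∈ Icc α β, ContinuousAt (fun τ => bb x a t (ξ τ)) τ := fun τ hτ =>
    ContinuousAt.comp (g := fun u => bb x a t u) (f := ξ) (bb_cont (hne τ hτ) (hq τ hτ))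
      hξ.continuousAt
  have hzc : ∀ τ, ContinuousAt (fun τ => ((a + ξ τ : ℂ) : Sph)) τ := fun τ =>
    (OnePoint.continuous_coe.comp (continuous_const.add hξ)).continuousAt
  obtain ⟨T, hT⟩ : ∃ T : Set ℝ, T = {τ | Tendsto (fun k : ℕ =>
      (sp (gx x a (bb x a t (ξ τ)) t))^[k] c) atTop (𝓝 ((a + ξ τ : ℂ) : Sph))} := ⟨_, rfl⟩
  have hmult : ∀ τ ∈ Icc α β, τ ∈ T → ‖gamd x t (bb x a t (ξ τ)) (a + ξ τ)‖ < 1 := by
    intro τ hτ hτT
    rw [hT] at hτT
    exact mult_lt hd hx ht a _ (hH τ hτ) hc (hq τ hτ) (bb_ne x a ht (hne τ hτ))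
      (fix_bb x a ht (hne τ hτ)) hτT
  have hclosed : IsClosed (T ∩ Icc α β) := by
    refine isClosed_of_closure_subset fun τ hτ => ?_
    have hτI : τ ∈ Icc α β := by
      have := closure_mono (inter_subset_right) hτ
      rwa [isClosed_Icc.closure_eq] at this
    refine ⟨?_, hτI⟩
    rw [hT]
    show Tendsto _ _ _
    rw [Metric.tendsto_atTop]
    intro ε hε
    have h1 := (hbc τ hτI).eventually
      (follow_param hd hx ht a (bb x a t (ξ τ)) (hH τ hτI) hc (η := ε / 3) (by positivity))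
    have h2 : ∀ᶠ τ' in 𝓝 τ, dist (((a + ξ τ' : ℂ)) : Sph) ((a + ξ τ : ℂ) : Sph) < ε / 3 := by
      have h3 : ContinuousAt (fun τ' => dist (((a + ξ τ' : ℂ)) : Sph) ((a + ξ τ : ℂ) : Sph)) τ :=
        (hzc τ).dist continuousAt_const
      have h4 : Tendsto (fun τ' => dist (((a + ξ τ' : ℂ)) : Sph) ((a + ξ τ : ℂ) : Sph)) (𝓝 τ)
          (𝓝 (dist (((a + ξ τ : ℂ)) : Sph) ((a + ξ τ : ℂ) : Sph))) := h3
      rw [dist_self] at h4
      exact h4.eventually (gt_mem_nhds (by positivity))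
    obtain ⟨τ', ⟨h3, h4⟩, h5, -⟩ := (mem_closure_iff_nhds.1 hτ _ (h1.and h2))
    rw [hT] at h5
    obtain ⟨N, hN⟩ := Metric.tendsto_atTop.1 h5 (ε / 3) (by positivity)
    refine ⟨N, fun k hk => ?_⟩
    have e1 := hN k hk
    have e2 := h3 k
    have e3 := dist_triangle4 ((sp (gx x a (bb x a t (ξ τ)) t))^[k] c)
      ((sp (gx x a (bb x a t (ξ τ')) t))^[k] c) ((a + ξ τ' : ℂ) : Sph) ((a + ξ τ : ℂ) : Sph)
    have e4 := dist_comm ((sp (gx x a (bb x a t (ξ τ)) t))^[k] c)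
      ((sp (gx x a (bb x a t (ξ τ')) t))^[k] c)
    linarith
  have hright : ∀ τ ∈ T ∩ Ico α β, (T ∩ Ioc τ β).Nonempty := by
    rintro τ ⟨hτT, hτI⟩
    have hτI' : τ ∈ Icc α β := Ico_subset_Icc_self hτI
    have hlam := hmult τ hτI' hτT
    have hτT' := hτT
    rw [hT] at hτT'
    obtain ⟨z, hz⟩ : ∃ z : ℂ, z = a + ξ τ := ⟨_, rfl⟩
    obtain ⟨b, hb⟩ : ∃ b : ℂ, b = bb x a t (ξ τ) := ⟨_, rfl⟩
    have hqz : (pol x 1).eval z ≠ 0 := by rw [hz]; exact hq τ hτI'
    have hbz : fr x z ≠ b := by rw [hz, hb]; exact bb_ne x a ht (hne τ hτI')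
    rw [← hz, ← hb] at hlam
    obtain ⟨L, hL1, hL2⟩ := exists_between hlam
    have hL0 : 0 ≤ L := (norm_nonneg _).trans hL1.le
    -- joint continuity
    have c1 : ContinuousAt (fun q : ℝ × ℂ => bb x a t (ξ q.1)) (τ, z) :=
      ContinuousAt.comp (g := fun τ => bb x a t (ξ τ)) (f := fun q : ℝ × ℂ => q.1)
        (hbc τ hτI') continuousAt_fst
    have c2 : ContinuousAt (fun q : ℝ × ℂ => fr x q.2) (τ, z) :=
      ContinuousAt.comp (g := fr x) (f := fun q : ℝ × ℂ => q.2)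
        (fr_deriv x hqz).continuousAt continuousAt_snd
    have c3 : ContinuousAt (fun q : ℝ × ℂ => (pol x 1).eval q.2) (τ, z) :=
      ((pol x 1).continuous.comp continuous_snd).continuousAt
    have c4 : ContinuousAt (fun q : ℝ × ℂ => dr x q.2) (τ, z) := by
      unfold dr
      have e1 : ContinuousAt (fun q : ℝ × ℂ => (pol x 0).eval q.2) (τ, z) :=
        ((pol x 0).continuous.comp continuous_snd).continuousAt
      have e2 : ContinuousAt (fun q : ℝ × ℂ => (derivative (pol x 0)).eval q.2) (τ, z) :=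
        ((derivative (pol x 0)).continuous.comp continuous_snd).continuousAt
      have e3 : ContinuousAt (fun q : ℝ × ℂ => (derivative (pol x 1)).eval q.2) (τ, z) :=
        ((derivative (pol x 1)).continuous.comp continuous_snd).continuousAt
      exact ((e2.mul c3).sub (e1.mul e3)).div (c3.pow 2) (pow_ne_zero 2 hqz)
    have hne' : (fr x z - bb x a t (ξ τ)) ≠ 0 := by rw [← hb]; exact sub_ne_zero.2 hbz
    have c5 : ContinuousAt (fun q : ℝ × ℂ => ‖gamd x t (bb x a t (ξ q.1)) q.2‖) (τ, z) := by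
      unfold gamd
      exact (((continuousAt_const.mul c4).neg).div ((c2.sub c1).pow 2) (pow_ne_zero 2 hne')).norm
    have ev : ∀ᶠ q : ℝ × ℂ in 𝓝 (τ, z), ‖gamd x t (bb x a t (ξ q.1)) q.2‖ ≤ L ∧
        (pol x 1).eval q.2 ≠ 0 ∧ fr x q.2 ≠ bb x a t (ξ q.1) := by
      have e1 := c5.tendsto.eventually (gt_mem_nhds (show ‖gamd x t (bb x a t (ξ τ)) z‖ < L by
        rw [← hb]; exact hL1))
      have e2 := c3.eventually_ne hqz
      have e3 := (c2.sub c1).eventually_ne hne'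
      filter_upwards [e1, e2, e3] with q h1 h2 h3
      exact ⟨h1.le, h2, sub_ne_zero.1 h3⟩
    obtain ⟨ε, hε, hball⟩ := Metric.eventually_nhds_iff.1 ev
    -- the critical point enters the small ball
    have hnb : (fun w : ℂ => (w : Sph)) '' ball z (ε / 8) ∈ 𝓝 (z : Sph) :=
      nhds_coe (ball_mem_nhds z (by positivity))
    have hopen : IsOpen ((fun w : ℂ => (w : Sph)) '' ball z (ε / 8)) :=
      OnePoint.isOpenEmbedding_coe.isOpenMap _ isOpen_ball
    have hTz : Tendsto (fun k : ℕ => (sp (gx x a (bb x a t (ξ τ)) t))^[k] c) atTop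
        (𝓝 (z : Sph)) := by rw [hz]; exact hτT'
    obtain ⟨k₀, hk₀⟩ := (hTz.eventually hnb).exists
    have e1 : ∀ᶠ τ' in 𝓝 τ, (sp (gx x a (bb x a t (ξ τ')) t))^[k₀] c ∈
        (fun w : ℂ => (w : Sph)) '' ball z (ε / 8) :=
      ContinuousAt.preimage_mem_nhds
        (ContinuousAt.comp (g := fun b : ℂ => (sp (gx x a b t))^[k₀] c)
          (f := fun τ' => bb x a t (ξ τ')) (cont_iter hx ht a c k₀).continuousAt (hbc τ hτI'))
        (hopen.mem_nhds hk₀)
    have e2 : ∀ᶠ τ' in 𝓝 τ, dist (a + ξ τ') z < ε / 4 := by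
      have h3 : Continuous fun τ' => a + ξ τ' := continuous_const.add hξ
      have h4 := h3.tendsto τ
      rw [← hz] at h4
      exact h4.eventually (ball_mem_nhds z (by positivity))
    have e3 : ∀ᶠ τ' in 𝓝 τ, dist τ' τ < ε := ball_mem_nhds τ hε
    have e4 : ∀ᶠ τ' in 𝓝[>] τ, τ' ∈ Ioc τ β := Ioc_mem_nhdsGT hτI.2
    obtain ⟨τ', ⟨⟨h1, h2⟩, h3⟩, h4⟩ :=
      ((((e1.and e2).and e3).filter_mono nhdsWithin_le_nhds).and e4).exists
    refine ⟨τ', ?_, h4⟩
    rw [hT]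
    have hτ'I : τ' ∈ Icc α β := ⟨hτI.1.trans h4.1.le, h4.2⟩
    obtain ⟨w, hw, hwe⟩ := h1
    show Tendsto _ _ _
    apply tendsto_shift (m := k₀)
    rw [← hwe]
    have hsubball : ∀ u ∈ ball (a + ξ τ') (ε / 2), dist (τ', u) (τ, z) < ε := by
      intro u hu
      rw [mem_ball] at hu
      rw [Prod.dist_eq, max_lt_iff]
      refine ⟨h3, ?_⟩
      show dist u z < ε
      have := dist_triangle u (a + ξ τ') z
      linarith
    refine loc_att (γ := gam x a t (bb x a t (ξ τ'))) (ρ := ε / 2) hL0 hL2 ?_ ?_ ?_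
    · intro u hu
      obtain ⟨-, g2, g3⟩ := hball (hsubball u hu)
      exact gam_spec hx ht a _ g2 g3
    · intro u hu
      have h5 := (convex_ball (a + ξ τ') (ε / 2)).norm_image_sub_le_of_norm_hasDerivWithin_le
        (f := gam x a t (bb x a t (ξ τ'))) (f' := gamd x t (bb x a t (ξ τ'))) (C := L)
        (x := a + ξ τ') (y := u)
        (fun y hy => by
          obtain ⟨-, g2, g3⟩ := hball (hsubball y hy)
          exact (gam_deriv x a t _ g2 g3).hasDerivWithinAt)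
        (fun y hy => (hball (hsubball y hy)).1) (mem_ball_self (by positivity)) hu
      rwa [fix_bb x a ht (hne τ' hτ'I)] at h5
    · rw [mem_ball] at hw ⊢
      have := dist_triangle w z (a + ξ τ')
      rw [dist_comm z] at this
      linarith
  have hα : α ∈ T := by rw [hT]; exact h0
  have hβ : β ∈ T := hclosed.mem_of_ge_of_forall_exists_gt hα hαβ hright
  exact hmult β (right_mem_Icc.2 hαβ) hβ

/-- If a critical point is attracted by a trap for the last map of a path of parameters and not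
for the first one then some map of the path is not hyperbolic. -/
theorem path_trap {d : ℕ} (hd : 2 ≤ d) {x : CV d} (hx : ND x) {a t : ℂ} (ht : t ≠ 0) {c : Sph}
    (hc : ¬ LocInj (sp x) c) {b : ℝ → ℂ} (hb : Continuous b) {W W' : Set Sph} (hW : IsOpen W)
    (hW' : IsCompact W') (hWW : W' ⊆ W)
    (hin : ∀ τ ∈ Icc (0 : ℝ) 1, ∀ z ∈ W, sp (gx x a (b τ) t) z ∈ W')
    (hH : ∀ τ ∈ Icc (0 : ℝ) 1, Hyp (sp (gx x a (b τ) t)))
    (h0 : ∀ k : ℕ, (sp (gx x a (b 0) t))^[k] c ∉ W) (k : ℕ) :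
    (sp (gx x a (b 1) t))^[k] c ∉ W := by
  obtain ⟨T, hT⟩ : ∃ T : Set ℝ, T = {τ | ∀ k : ℕ, (sp (gx x a (b τ) t))^[k] c ∉ W} := ⟨_, rfl⟩
  have hclosed : IsClosed (T ∩ Icc (0 : ℝ) 1) := by
    refine IsClosed.inter ?_ isClosed_Icc
    rw [hT, Set.ofPred_forall]
    refine isClosed_iInter fun k => ?_
    have h1 : Continuous (fun τ : ℝ => (sp (gx x a (b τ) t))^[k] c) :=
      (cont_iter hx ht a c k).comp hb
    exact (hW.preimage h1).isClosed_compl
  have hα : (0 : ℝ) ∈ T := by rw [hT]; exact h0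
  have hright : ∀ τ ∈ T ∩ Ico (0 : ℝ) 1, (T ∩ Ioc τ 1).Nonempty := by
    rintro τ ⟨hτT, hτI⟩
    have hτI' : τ ∈ Icc (0 : ℝ) 1 := Ico_subset_Icc_self hτI
    by_contra hcon
    rw [Set.not_nonempty_iff_eq_empty] at hcon
    obtain ⟨η, hη, hηW⟩ := hW'.exists_thickening_subset_open hW hWW
    have h1 := hb.continuousAt.eventually
      (follow_param hd hx ht a (b τ) (hH τ hτI') hc (η := η) hη)
    have h2 : ∀ᶠ τ' in 𝓝[>] τ, τ' ∈ Ioc τ 1 := Ioc_mem_nhdsGT hτI.2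
    obtain ⟨τ', h3, h4⟩ := ((h1.filter_mono nhdsWithin_le_nhds).and h2).exists
    have h5 : τ' ∉ T := fun h => by
      have : τ' ∈ T ∩ Ioc τ 1 := ⟨h, h4⟩
      rw [hcon] at this
      exact this
    rw [hT, Set.mem_ofPred_eq] at h5
    push Not at h5
    obtain ⟨j, hj⟩ := h5
    have hτ'I : τ' ∈ Icc (0 : ℝ) 1 := ⟨hτI.1.trans h4.1.le, h4.2⟩
    have h6 := hin τ' hτ'I _ hj
    rw [← Function.iterate_succ_apply' (sp (gx x a (b τ') t)) j c] at h6
    have h7 := h3 (j + 1)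
    have h8 : (sp (gx x a (b τ) t))^[j + 1] c ∈ W := by
      apply hηW
      rw [mem_thickening_iff]
      exact ⟨_, h6, by rw [dist_comm]; exact h7⟩
    rw [hT] at hτT
    exact hτT (j + 1) h8
  have hβ : (1 : ℝ) ∈ T := hclosed.mem_of_ge_of_forall_exists_gt hα zero_le_one hright
  rw [hT] at hβ
  exact hβ k

end Pool.Agent.Helper29.MS
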