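import Mathlib
import Pool.Agent.Helper29.MS.Path

/-! Maps which are not hyperbolic close to every point of the segment and to the critical
values. -/

set_option autoImplicit false

open Topology Filter Metric Set Polynomial ComplexConjugate
open scoped OnePoint
open Pool.Agent.H790R3.RB (CV hF ND sp pol hc pr)
open Pool.Agent.H790R3.RB.SP (pr_zero pr_ne pr_eq_iff pr_hc sp_pr sp_cont)
open Pool.Agent.H790R3.RB.PQ (hF_one hF_inf part1 sp_eval pol_natDegree)
open Pool.Agent.R239.Fat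

namespace Pool.Agent.Helper29.MS

section

variable {d : ℕ} {x : CV d} {a s : ℂ} {s₀ S₀ K r β M : ℝ}

/-- one step in the trap about the exact fixed point -/
theorem exact_step (hx : ND x) (hL : Loc x a s s₀ S₀ K r β) {t p m : ℂ} (ht0 : t ≠ 0)
    (hP : Pair s K M p m) (ht : t = -s * p * m) (hMr : 8 ≤ M * r) (hpr : ‖p‖ ≤ r) {z : ℂ}
    (hz : Trap p m z) :
    ∃ y : ℂ, sp (gx x a (bb x a t p) t) ((a + z : ℂ) : Sph) = ((a + y : ℂ) : Sph) ∧
      2 * ‖m‖ * (‖z - m‖ * ‖y - p‖) ≤ (‖m‖ + ‖p‖) * (‖z - p‖ * ‖y - m‖) := by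
  have hzr : ‖z‖ ≤ r := by
    have h1 := hz.x_le hP
    have := hP.M0
    by_contra hcon
    push Not at hcon
    nlinarith
  have hq := hL.q z hzr
  have hk := hL.k z p hzr hpr
  set R := fr x (a + z) - fr x (a + p) - s * (z - p) with hR
  obtain ⟨h1, h2⟩ := step2 hP hz hk
  have hp0 : p ≠ 0 := norm_pos_iff.1 hP.hp
  have hm0 : m ≠ 0 := norm_pos_iff.1 hP.m0
  have htp : t / p = -s * m := by
    rw [ht]; field_simp
  have hden : den s p m z R = fr x (a + z) - bb x a t p := by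
    unfold den bb
    rw [hR, htp]; ring
  have hm := hP.m0
  have htn : 0 < ‖t‖ := norm_pos_iff.2 ht0
  have hA := hz.pos hP
  have hlt := hz.lt hP
  have hpm := hP.hpm
  have hne : fr x (a + z) - bb x a t p ≠ 0 := by
    intro h0
    rw [hden, h0, mul_zero, mul_zero, sub_zero, ← ht] at h1
    have h3 : (‖m‖ + ‖p‖) * (‖z - p‖ * ‖t‖) ≤ (‖m‖ + ‖p‖) * (‖z - m‖ * ‖t‖) := by
      apply mul_le_mul_of_nonneg_left _ (by positivity)
      exact mul_le_mul_of_nonneg_right hlt.le htn.le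
    have h4 : 0 < ‖z - m‖ * ‖t‖ := by positivity
    nlinarith
  have hval : sp x ((a + z : ℂ) : Sph) = ((fr x (a + z) : ℂ) : Sph) := sp_eval x _ hq
  refine ⟨t / (fr x (a + z) - bb x a t p), gx_coe hx ht0 a _ hval (sub_ne_zero.1 hne), ?_⟩
  rw [hden, ← ht] at h1
  have hpos : 0 < ‖fr x (a + z) - bb x a t p‖ := norm_pos_iff.2 hne
  have e1 : ∀ c : ℂ, ‖t / (fr x (a + z) - bb x a t p) - c‖ =
      ‖t - c * (fr x (a + z) - bb x a t p)‖ / ‖fr x (a + z) - bb x a t p‖ := by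
    intro c
    rw [← norm_div]
    congr 1
    field_simp
  rw [e1, e1, mul_div_assoc', mul_div_assoc', mul_div_assoc', mul_div_assoc']
  exact (div_le_div_iff_of_pos_right hpos).2 h1

/-- all points of the trap are attracted by the fixed point -/
theorem exact_att (hx : ND x) (hL : Loc x a s s₀ S₀ K r β) {t p m : ℂ} (ht0 : t ≠ 0)
    (hP : Pair s K M p m) (ht : t = -s * p * m) (hMr : 8 ≤ M * r) (hpr : ‖p‖ ≤ r) {z : ℂ}
    (hz : Trap p m z) :
    Tendsto (fun k : ℕ => (sp (gx x a (bb x a t p) t))^[k] ((a + z : ℂ) : Sph)) atTop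
      (𝓝 ((a + p : ℂ) : Sph)) := by
  have hm := hP.m0
  have hp := hP.hp
  have hpm := hP.hpm
  have hw := hP.w0
  obtain ⟨θ, hθ⟩ : ∃ θ : ℝ, θ = (‖m‖ + ‖p‖) / (2 * ‖m‖) := ⟨_, rfl⟩
  have hθ0 : 0 < θ := by rw [hθ]; positivity
  have hθ1 : θ < 1 := by rw [hθ, div_lt_one (by positivity)]; linarith
  have hθm : θ * (2 * ‖m‖) = ‖m‖ + ‖p‖ := by rw [hθ]; field_simp
  have hTrap : ∀ y : ℂ, Trap p m y ↔ ‖y - p‖ < θ * ‖y - m‖ := by
    intro y
    unfold Trap
    have e : (‖m‖ + ‖p‖) / 2 * ‖y - m‖ = ‖m‖ * (θ * ‖y - m‖) := by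
      rw [← hθm]; ring
    rw [e]
    exact ⟨fun h => lt_of_mul_lt_mul_left h hm.le, fun h => mul_lt_mul_of_pos_left h hm⟩
  have key : ∀ k : ℕ, ∃ y : ℂ, (sp (gx x a (bb x a t p) t))^[k] ((a + z : ℂ) : Sph) =
      ((a + y : ℂ) : Sph) ∧ ‖y - p‖ < θ * ‖y - m‖ ∧ ‖y - p‖ ≤ θ ^ k * ‖y - m‖ := by
    intro k
    induction k with
    | zero =>
      refine ⟨z, rfl, (hTrap z).1 hz, ?_⟩
      rw [pow_zero, one_mul]
      exact (hz.lt hP).le
    | succ k ih =>
      obtain ⟨y, e1, e2, e3⟩ := ih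
      have hy : Trap p m y := (hTrap y).2 e2
      obtain ⟨u, e4, e5⟩ := exact_step hx hL ht0 hP ht hMr hpr hy
      have hA := hy.pos hP
      -- |u - p| / |u - m| ≤ θ |y - p| / |y - m|
      have e6 : ‖y - m‖ * ‖u - p‖ ≤ θ * (‖y - p‖ * ‖u - m‖) := by
        have : (2 * ‖m‖) * (‖y - m‖ * ‖u - p‖) ≤ (2 * ‖m‖) * (θ * (‖y - p‖ * ‖u - m‖)) := by
          calc (2 * ‖m‖) * (‖y - m‖ * ‖u - p‖) ≤ (‖m‖ + ‖p‖) * (‖y - p‖ * ‖u - m‖) := e5
            _ = _ := by rw [← hθm]; ring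
        exact le_of_mul_le_mul_left this (by positivity)
      have hum : 0 < ‖u - m‖ := by
        rcases eq_or_lt_of_le (norm_nonneg (u - m)) with h | h
        · exfalso
          rw [← h, mul_zero, mul_zero] at e6
          have hup : ‖u - p‖ = 0 := by
            have := norm_nonneg (u - p)
            nlinarith
          have h7 : u = m := sub_eq_zero.1 (norm_eq_zero.1 h.symm)
          have h8 : u = p := sub_eq_zero.1 (norm_eq_zero.1 hup)
          rw [← h7, ← h8, sub_self, norm_zero] at hw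
          exact lt_irrefl _ hw
        · exact h
      refine ⟨u, by rw [Function.iterate_succ_apply', e1, e4], ?_, ?_⟩
      · have h9 : ‖y - m‖ * ‖u - p‖ < ‖y - m‖ * (θ * ‖u - m‖) := by
          have h10 : θ * (‖y - p‖ * ‖u - m‖) < θ * (‖y - m‖ * ‖u - m‖) := by
            apply mul_lt_mul_of_pos_left _ hθ0
            exact mul_lt_mul_of_pos_right (hy.lt hP) hum
          linarith
        exact lt_of_mul_lt_mul_left h9 hA.le
      · have h9 : ‖y - m‖ * ‖u - p‖ ≤ ‖y - m‖ * (θ ^ (k + 1) * ‖u - m‖) := by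
          have h10 : θ * (‖y - p‖ * ‖u - m‖) ≤ θ * (θ ^ k * ‖y - m‖ * ‖u - m‖) := by
            apply mul_le_mul_of_nonneg_left _ hθ0.le
            exact mul_le_mul_of_nonneg_right e3 hum.le
          calc ‖y - m‖ * ‖u - p‖ ≤ θ * (‖y - p‖ * ‖u - m‖) := e6
            _ ≤ θ * (θ ^ k * ‖y - m‖ * ‖u - m‖) := h10
            _ = _ := by ring
        exact le_of_mul_le_mul_left h9 hA
  choose y e1 e2 e3 using key
  -- |y - m| is bounded
  have e4 : ∀ k, ‖y k - p‖ ≤ θ ^ k * (‖p - m‖ / (1 - θ)) := by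
    intro k
    have h1 : ‖y k - m‖ ≤ ‖y k - p‖ + ‖p - m‖ := by
      have := norm_add_le (y k - p) (p - m)
      rwa [sub_add_sub_cancel] at this
    have h2 := e2 k
    have h3 : ‖y k - m‖ ≤ ‖p - m‖ / (1 - θ) := by
      rw [le_div_iff₀ (by linarith)]
      nlinarith
    exact (e3 k).trans (mul_le_mul_of_nonneg_left h3 (pow_nonneg hθ0.le k))
  have h3 : Tendsto y atTop (𝓝 p) := by
    rw [tendsto_iff_norm_sub_tendsto_zero]
    refine squeeze_zero (fun _ => norm_nonneg _) e4 ?_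
    have := (tendsto_pow_atTop_nhds_zero_of_lt_one hθ0.le hθ1).mul_const (‖p - m‖ / (1 - θ))
    rwa [zero_mul] at this
  have h4 : Tendsto (fun k => a + y k) atTop (𝓝 (a + p)) := h3.const_add a
  exact ((OnePoint.continuous_coe.tendsto (a + p)).comp h4).congr fun k => (e1 k).symm

end

end Pool.Agent.Helper29.MS
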