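import Mathlib
import Pool.Agent.Helper29.MS.Sharp

/-! Maps which are not hyperbolic close to every point of the segment and to the critical
values. -/

set_option autoImplicit false

open Topology Filter Metric Set Polynomial ComplexConjugate
open scoped OnePoint
open Pool.Agent.H790R3.RB (CV hF ND sp pol hc pr)
open Pool.Agent.H790R3.RB.SP (pr_zero pr_ne pr_eq_iff pr_hc sp_pr sp_cont)
open Pool.Agent.H790R3.RB.PQ (hF_one hF_inf part1 sp_eval pol_natDegree)
open Pool.Agent.R239.Fat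
open Pool.Agent.Y334.RM (LI li_rat wron good_rat)

namespace Pool.Agent.Helper29.MS

theorem dr_of_crit {d : ℕ} (hd : 1 ≤ d) {x : CV d} (hx : ND x) {z : ℂ}
    (h : ¬ LocInj (sp x) (z : Sph)) : dr x z = 0 := by
  obtain ⟨hcop, hmax⟩ := part1 hd x hx
  by_contra hcon
  apply h
  refine (li_rat (isRat_sp hd hx) (by omega) z).2 ?_
  intro h0
  apply hcon
  unfold wron at h0
  simp only [eval_sub, eval_mul] at h0
  unfold dr
  rw [h0, zero_div]

/-- close to a critical value there are maps which are not hyperbolic -/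
theorem sharp_cv {s₀ S₀ K r β : ℝ} (hs₀ : 0 < s₀) (hK : 0 ≤ K) (hr : 0 < r) (hβ : 0 < β)
    (hS : s₀ ≤ S₀) :
    ∃ C δ : ℝ, 0 < C ∧ 0 < δ ∧ ∀ (d : ℕ) (x : CV d) (a t : ℂ), 2 ≤ d → ND x →
      Loc x a (dr x a) s₀ S₀ K r β →
      (∀ z : ℂ, ‖z‖ ≤ r → ‖dr x (a + z) - dr x a‖ ≤ K * ‖z‖) → 0 < ‖t‖ → ‖t‖ < δ →
      ∀ c : Sph, ¬ LocInj (sp x) c → ∀ v : ℂ, sp x c = (v : Sph) →
      ∃ b : ℂ, ‖b - v‖ ≤ C * ‖t‖ ∧ ¬ Hyp (sp (gx x a b t)) := by
  have hS₀ : 0 < S₀ := hs₀.trans_le hS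
  obtain ⟨ρ, hρ⟩ : ∃ ρ : ℝ, ρ = min (min r 1) (min (β / (4 * (S₀ + K))) (s₀ / (K + 1) / 2)) :=
    ⟨_, rfl⟩
  have hρ0 : 0 < ρ := by rw [hρ]; positivity
  have hρr : ρ ≤ r := by rw [hρ]; exact (min_le_left _ _).trans (min_le_left _ _)
  have hρ1 : ρ ≤ 1 := by rw [hρ]; exact (min_le_left _ _).trans (min_le_right _ _)
  have hρκ : S₀ * ρ + K * ρ ^ 2 ≤ β / 2 / 2 := by
    have h1 : ρ ≤ β / (4 * (S₀ + K)) := by rw [hρ]; exact (min_le_right _ _).trans (min_le_left _ _)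
    rw [le_div_iff₀ (by positivity)] at h1
    have h2 : K * ρ ^ 2 ≤ K * ρ := by
      apply mul_le_mul_of_nonneg_left _ hK
      nlinarith
    nlinarith
  have hρs : K * ρ < s₀ := by
    have h1 : ρ ≤ s₀ / (K + 1) / 2 := by rw [hρ]; exact (min_le_right _ _).trans (min_le_right _ _)
    rw [div_div, le_div_iff₀ (by positivity)] at h1
    nlinarith
  refine ⟨2 / ρ, min (β * ρ / 8) (β * ρ / 4), by positivity, by positivity, ?_⟩
  intro d x a t hd hx hL hdr ht htδ c hc v hv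
  have ht0 : t ≠ 0 := norm_pos_iff.1 ht
  have ht1 : 4 * ‖t‖ ≤ β / 2 * ρ := by
    have := (htδ.le).trans (min_le_left _ _)
    linarith
  have ht2 : 2 / ρ * ‖t‖ ≤ β / 2 := by
    have h1 := (htδ.le).trans (min_le_right _ _)
    rw [div_mul_eq_mul_div, div_le_iff₀ hρ0]
    linarith
  have hvβ := hL.cv c hc v hv
  -- the point c is far from `a`
  have hfar : ∀ w : ℂ, c = (w : Sph) → ρ < ‖a - w‖ := by
    intro w hw
    by_contra hcon
    push Not at hcon
    rw [norm_sub_rev] at hcon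
    rw [hw] at hc
    have h1 := dr_of_crit (by omega) hx hc
    have h2 := hdr (w - a) (hcon.trans hρr)
    rw [add_sub_cancel, h1, zero_sub, norm_neg] at h2
    have h3 := hL.s0
    have h4 : K * ‖w - a‖ ≤ K * ρ := mul_le_mul_of_nonneg_left hcon hK
    linarith
  obtain ⟨b₀, hb₀, hfix⟩ : ∃ b₀ : ℂ, ‖b₀ - v‖ ≤ 2 / ρ * ‖t‖ ∧ sp (gx x a b₀ t) c = c := by
    induction c using OnePoint.rec with
    | infty =>
      refine ⟨v, ?_, gx_pole hx ht0 a v hv⟩
      rw [sub_self, norm_zero]; positivity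
    | coe w =>
      have h1 := hfar w rfl
      have h2 : a - w ≠ 0 := by
        intro h0
        rw [h0, norm_zero] at h1
        linarith
      refine ⟨v + t / (a - w), ?_, ?_⟩
      · rw [add_sub_cancel_left, norm_div, div_mul_eq_mul_div]
        rw [div_le_div_iff₀ (by linarith) hρ0]
        nlinarith
      · have h3 : v ≠ v + t / (a - w) := by
          intro h0
          have : t / (a - w) = 0 := by linear_combination -h0
          exact div_ne_zero ht0 h2 this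
        rw [gx_coe hx ht0 a _ hv h3]
        congr 1
        have h4 : v - (v + t / (a - w)) = -(t / (a - w)) := by ring
        rw [h4, div_neg, div_div_eq_mul_div, mul_div_cancel_left₀ _ ht0]
        ring
  obtain ⟨b₁, hb₁⟩ : ∃ b₁ : ℂ, b₁ = v + (2 / ρ : ℝ) * t := ⟨_, rfl⟩
  have hb₁n : ‖b₁ - v‖ ≤ 2 / ρ * ‖t‖ := by
    rw [hb₁, add_sub_cancel_left, norm_mul, Complex.norm_real, Real.norm_eq_abs,
      abs_of_pos (by positivity)]
  obtain ⟨b, hb⟩ : ∃ b : ℝ → ℂ, b = fun τ : ℝ => b₀ + (τ : ℂ) * (b₁ - b₀) := ⟨_, rfl⟩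
  have hbn : ∀ τ ∈ Icc (0 : ℝ) 1, ‖b τ - v‖ ≤ 2 / ρ * ‖t‖ := by
    intro τ hτ
    have h1 : b τ - v = ((1 - τ : ℝ) : ℂ) * (b₀ - v) + (τ : ℂ) * (b₁ - v) := by
      rw [hb]; push_cast; ring
    rw [h1]
    refine (norm_add_le _ _).trans ?_
    rw [norm_mul, norm_mul, Complex.norm_real, Complex.norm_real, Real.norm_eq_abs,
      Real.norm_eq_abs, abs_of_nonneg (by linarith [hτ.2]), abs_of_nonneg hτ.1]
    have e1 : (1 - τ) * ‖b₀ - v‖ ≤ (1 - τ) * (2 / ρ * ‖t‖) :=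
      mul_le_mul_of_nonneg_left hb₀ (by linarith [hτ.2])
    have e2 : τ * ‖b₁ - v‖ ≤ τ * (2 / ρ * ‖t‖) := mul_le_mul_of_nonneg_left hb₁n hτ.1
    linarith
  by_contra hcon
  push Not at hcon
  have hfr : ∀ τ ∈ Icc (0 : ℝ) 1, β / 2 ≤ ‖fr x a - b τ‖ := by
    intro τ hτ
    have h1 := (hbn τ hτ).trans ht2
    have h2 : ‖v - fr x a‖ ≤ ‖fr x a - b τ‖ + ‖b τ - v‖ := by
      have := norm_add_le (fr x a - b τ) (b τ - v)
      rw [sub_add_sub_cancel, norm_sub_rev] at this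
      exact this
    linarith
  have hend := path_trap hd hx ht0 hc (a := a) (b := b) (by rw [hb]; fun_prop)
    (W := (fun w : ℂ => (w : Sph)) '' ball a ρ)
    (W' := (fun w : ℂ => (w : Sph)) '' closedBall a (ρ / 2))
    (OnePoint.isOpenEmbedding_coe.isOpenMap _ isOpen_ball)
    ((isCompact_closedBall a (ρ / 2)).image OnePoint.continuous_coe)
    (image_mono (closedBall_subset_ball (by linarith)))
    (by
      rintro τ hτ _ ⟨w, hw, rfl⟩
      rw [mem_ball, dist_eq_norm] at hw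
      obtain ⟨y, h1, h2⟩ := far_step hx hL hρ0 hρr hK hρκ (by positivity) ht0 (hfr τ hτ) ht1
        (z := w - a) hw.le
      rw [add_sub_cancel] at h1
      refine ⟨a + y, ?_, h1.symm⟩
      rw [mem_closedBall, dist_eq_norm, add_sub_cancel_left]
      exact h2)
    (fun τ hτ => hcon (b τ) (hbn τ hτ))
    (by
      intro k hk
      have h1 : b 0 = b₀ := by rw [hb]; simp
      rw [h1, Function.iterate_fixed hfix k] at hk
      obtain ⟨w, hw, hwc⟩ := hk
      have h2 := hfar w hwc.symm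
      rw [mem_ball, dist_eq_norm, norm_sub_rev] at hw
      linarith)
    1
  apply hend
  have h1 : b 1 = b₁ := by rw [hb]; simp
  have h2 : v ≠ b₁ := by
    rw [hb₁]
    intro h0
    have h3 : ((2 / ρ : ℝ) : ℂ) * t = 0 := by linear_combination -h0
    rcases mul_eq_zero.1 h3 with h4 | h4
    · have h5 : (2 / ρ : ℝ) = 0 := by exact_mod_cast h4
      have : (0 : ℝ) < 2 / ρ := by positivity
      linarith
    · exact ht0 h4
  rw [Function.iterate_one, h1, gx_coe hx ht0 a b₁ hv h2]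
  refine ⟨_, ?_, rfl⟩
  rw [mem_ball, dist_eq_norm, add_sub_cancel_left, norm_div, hb₁]
  have h3 : v - (v + ((2 / ρ : ℝ) : ℂ) * t) = -(((2 / ρ : ℝ) : ℂ) * t) := by ring
  rw [h3, norm_neg, norm_mul, Complex.norm_real, Real.norm_eq_abs, abs_of_pos (by positivity)]
  rw [div_lt_iff₀ (by positivity)]
  have h4 : ρ * (2 / ρ * ‖t‖) = 2 * ‖t‖ := by field_simp
  linarith

end Pool.Agent.Helper29.MS
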