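import Mathlib
import Pool.Agent.Helper29.MS.Sharp2

/-! Maps which are not hyperbolic close to every point of the segment. -/

set_option autoImplicit false

open Topology Filter Metric Set Polynomial ComplexConjugate
open scoped OnePoint
open Pool.Agent.H790R3.RB (CV hF ND sp pol hc pr)
open Pool.Agent.H790R3.RB.SP (pr_zero pr_ne pr_eq_iff pr_hc sp_pr sp_cont)
open Pool.Agent.H790R3.RB.PQ (hF_one hF_inf part1 sp_eval pol_natDegree)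
open Pool.Agent.R239.Fat
open Pool.Agent.Y334.RM (LI li_rat wron good_rat)

namespace Pool.Agent.Helper29.MS

/-- a unit vector with given real part -/
theorem exists_unit {r₀ : ℝ} (h : |r₀| ≤ 2) : ∃ u : ℂ, ‖u‖ = 1 ∧ u + conj u = r₀ := by
  have h1 : 0 ≤ 1 - (r₀ / 2) ^ 2 := by
    have := abs_le.1 h
    nlinarith
  refine ⟨⟨r₀ / 2, Real.sqrt (1 - (r₀ / 2) ^ 2)⟩, ?_, ?_⟩
  · rw [Complex.norm_def, Complex.normSq_mk, Real.sqrt_eq_one, ← pow_two, ← pow_two,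
      Real.sq_sqrt h1]
    ring
  · rw [Complex.add_conj]
    simp only
    push_cast
    ring

/-- the starting point of the path -/
theorem exists_start {u : ℂ} (hu : ‖u‖ = 1) {h₀ : ℝ} (hh0 : 0 < h₀) (hh : h₀ ≤ 9 / 16) :
    ∃ ρ : ℝ, 1 / 2 ≤ ρ ∧ ρ < 1 ∧ (1 - ρ ^ 2) * ‖conj u - ρ ^ 2 * u‖ = h₀ := by
  have hc : Continuous (fun ρ : ℝ => (1 - ρ ^ 2) * ‖conj u - (ρ : ℂ) ^ 2 * u‖) := by fun_prop
  have h1 := intermediate_value_Icc' (show (1 / 2 : ℝ) ≤ 1 by norm_num) hc.continuousOn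
  have h2 : h₀ ∈ Icc ((fun ρ : ℝ => (1 - ρ ^ 2) * ‖conj u - (ρ : ℂ) ^ 2 * u‖) 1)
      ((fun ρ : ℝ => (1 - ρ ^ 2) * ‖conj u - (ρ : ℂ) ^ 2 * u‖) (1 / 2)) := by
    constructor
    · simp only [one_pow, sub_self, zero_mul]
      exact hh0.le
    · have h3 := (norm_conj_sub hu (show (0 : ℝ) ≤ 1 / 2 by norm_num) (by norm_num)).2
      have h4 : (1 - (1 / 2 : ℝ) ^ 2) * (1 - (1 / 2 : ℝ) ^ 2) ≤
          (1 - (1 / 2 : ℝ) ^ 2) * ‖conj u - (((1 / 2 : ℝ)) : ℂ) ^ 2 * u‖ :=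
        mul_le_mul_of_nonneg_left h3 (by norm_num)
      refine le_trans ?_ h4
      norm_num
      linarith
  obtain ⟨ρ, hρ, hρe⟩ := h1 h2
  refine ⟨ρ, hρ.1, ?_, hρe⟩
  rcases eq_or_lt_of_le hρ.2 with h | h
  · exfalso
    rw [h] at hρe
    simp only [one_pow, sub_self, zero_mul] at hρe
    linarith
  · exact h

/-- geometry of the path -/
theorem path_bound {u : ℂ} (hu : ‖u‖ = 1) {ρ τ h₀ C : ℝ} (hρ : 1 / 2 ≤ ρ) (hρ1 : ρ < 1)
    (hh : (1 - ρ ^ 2) * ‖conj u - ρ ^ 2 * u‖ = h₀) (hτ : ρ ≤ τ) (hτ1 : τ ≤ 1 + C) (hC0 : 0 ≤ C)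
    (hC : C ≤ 1) :
    |(1 - τ) / τ| * ‖conj u - τ * u‖ ≤ 4 * h₀ + 3 * C := by
  have hτ0 : 0 < τ := by linarith
  have hh0 : 0 ≤ h₀ := by
    rw [← hh]
    have : 0 ≤ 1 - ρ ^ 2 := by nlinarith
    positivity
  rcases le_total τ 1 with h | h
  · have e1 : |(1 - τ) / τ| ≤ 2 * (1 - ρ ^ 2) := by
      rw [abs_of_nonneg (div_nonneg (by linarith) hτ0.le), div_le_iff₀ hτ0]
      nlinarith
    have e2 : ‖conj u - τ * u‖ ≤ 2 * ‖conj u - ρ ^ 2 * u‖ := by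
      have h1 : conj u - τ * u = (conj u - ρ ^ 2 * u) - (((τ - ρ ^ 2 : ℝ)) : ℂ) * u := by
        push_cast; ring
      have h2 : ‖(((τ - ρ ^ 2 : ℝ)) : ℂ) * u‖ = τ - ρ ^ 2 := by
        rw [norm_mul, hu, Complex.norm_real, Real.norm_eq_abs, mul_one, abs_of_nonneg]
        nlinarith
      have h3 := (norm_conj_sub hu (show (0 : ℝ) ≤ ρ by linarith) hρ1.le).2
      rw [h1]
      refine (norm_sub_le _ _).trans ?_
      rw [h2]
      linarith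
    have e3 : |(1 - τ) / τ| * ‖conj u - τ * u‖ ≤
        (2 * (1 - ρ ^ 2)) * (2 * ‖conj u - ρ ^ 2 * u‖) :=
      mul_le_mul e1 e2 (norm_nonneg _) (by nlinarith)
    nlinarith
  · have e1 : |(1 - τ) / τ| ≤ C := by
      rw [abs_of_nonpos (div_nonpos_of_nonpos_of_nonneg (by linarith) hτ0.le), ← neg_div,
        div_le_iff₀ hτ0]
      nlinarith
    have e2 : ‖conj u - τ * u‖ ≤ 3 := by
      refine (norm_sub_le _ _).trans ?_
      rw [Complex.norm_conj, hu, norm_mul, hu, Complex.norm_real, Real.norm_eq_abs,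
        abs_of_pos hτ0]
      linarith
    have e3 : |(1 - τ) / τ| * ‖conj u - τ * u‖ ≤ C * 3 :=
      mul_le_mul e1 e2 (norm_nonneg _) hC0
    linarith

/-- the multiplier of the fixed point `a + ξ` -/
theorem norm_gamd {d : ℕ} (x : CV d) (a : ℂ) {t ξ : ℂ} (ht : t ≠ 0) (hξ : ξ ≠ 0) :
    ‖gamd x t (bb x a t ξ) (a + ξ)‖ = ‖dr x (a + ξ)‖ * ‖ξ‖ ^ 2 / ‖t‖ := by
  unfold gamd bb
  rw [sub_sub_cancel, norm_div, norm_neg, norm_mul, norm_pow, norm_div]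
  have h1 : 0 < ‖t‖ := norm_pos_iff.2 ht
  have h2 : 0 < ‖ξ‖ := norm_pos_iff.2 hξ
  field_simp

/-- close to every point of the segment there are maps which are not hyperbolic -/
theorem sharp_seg {s₀ S₀ K r β : ℝ} (hs₀ : 0 < s₀) (hK : 0 ≤ K) (hr : 0 < r) (hβ : 0 < β)
    (hS : s₀ ≤ S₀) :
    ∃ C δ : ℝ, 0 < C ∧ 0 < δ ∧ ∀ (d : ℕ) (x : CV d) (a t : ℂ), 2 ≤ d → ND x →
      Loc x a (dr x a) s₀ S₀ K r β →
      (∀ z : ℂ, ‖z‖ ≤ r → ‖dr x (a + z) - dr x a‖ ≤ K * ‖z‖) → 0 < ‖t‖ → ‖t‖ < δ →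
      ∀ (μ : ℂ) (r₀ : ℝ), μ ^ 2 = -(t * dr x a) → |r₀| ≤ 2 →
      ∃ b : ℂ, ‖b - (fr x a + r₀ * μ)‖ ≤ C * ‖t‖ ∧ ¬ Hyp (sp (gx x a b t)) := by
  have hS₀ : 0 < S₀ := hs₀.trans_le hS
  obtain ⟨M, hM⟩ : ∃ M : ℝ, M = 128 * K / s₀ + 8 / r + 32 * S₀ / β + 1 := ⟨_, rfl⟩
  have hM1 : 128 * K ≤ M * s₀ := by
    have : 128 * K / s₀ ≤ M := by
      rw [hM]
      have : 0 ≤ 8 / r := by positivity
      have : 0 ≤ 32 * S₀ / β := by positivity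
      linarith
    rwa [div_le_iff₀ hs₀] at this
  have hM2 : 8 ≤ M * r := by
    have : 8 / r ≤ M := by
      rw [hM]
      have : 0 ≤ 128 * K / s₀ := by positivity
      have : 0 ≤ 32 * S₀ / β := by positivity
      linarith
    rwa [div_le_iff₀ hr] at this
  have hM3 : 32 * S₀ ≤ M * β := by
    have : 32 * S₀ / β ≤ M := by
      rw [hM]
      have : 0 ≤ 128 * K / s₀ := by positivity
      have : 0 ≤ 8 / r := by positivity
      linarith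
    rwa [div_le_iff₀ hβ] at this
  have hM0 : 0 < M := by
    rw [hM]; positivity
  obtain ⟨Q, hQ⟩ : ∃ Q : ℝ, Q = 4 * K / s₀ := ⟨_, rfl⟩
  have hQ0 : 0 ≤ Q := by rw [hQ]; positivity
  have hQs : Q * s₀ = 4 * K := by rw [hQ]; field_simp
  obtain ⟨C, hC⟩ : ∃ C : ℝ, C = 8 * M + 4 * Q + 1 := ⟨_, rfl⟩
  have hC0 : 0 < C := by rw [hC]; positivity
  obtain ⟨W₁, hW₁⟩ : ∃ W₁ : ℝ, W₁ = min (min (9 / (32 * M)) (1 / (Q + 1)))
      (min (r / 2) (min (β / (2 * ((C + 2) * S₀))) 1)) := ⟨_, rfl⟩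
  have hW0 : 0 < W₁ := by rw [hW₁]; positivity
  refine ⟨C, s₀ * W₁ ^ 2, hC0, by positivity, ?_⟩
  intro d x a t hd hx hL hdr ht htδ μ r₀ hμ hr₀
  obtain ⟨s, hs⟩ : ∃ s : ℂ, s = dr x a := ⟨_, rfl⟩
  rw [← hs] at hL hμ
  have ht0 : t ≠ 0 := norm_pos_iff.1 ht
  have hs1 := hL.s0
  have hs2 := hL.s1
  have hsn : 0 < ‖s‖ := hs₀.trans_le hs1
  have hsne : s ≠ 0 := norm_pos_iff.1 hsn
  obtain ⟨w, hw⟩ : ∃ w : ℂ, w = μ / s := ⟨_, rfl⟩
  have hμw : μ = s * w := by rw [hw]; field_simp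
  have hw2 : t = -s * w ^ 2 := by
    have h1 : s ^ 2 * w ^ 2 = -(t * s) := by rw [← hμ, hμw]; ring
    have h2 : s * (s * w ^ 2) = s * (-t) := by rw [← mul_assoc, ← pow_two, h1]; ring
    have h3 := mul_left_cancel₀ hsne h2
    linear_combination h3
  have hwn : ‖t‖ = ‖s‖ * ‖w‖ ^ 2 := by rw [hw2, norm_mul, norm_neg, norm_pow]
  have hwpos : 0 < ‖w‖ := by
    rcases eq_or_lt_of_le (norm_nonneg w) with h | h
    · exfalso
      rw [← h] at hwn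
      rw [hwn] at ht
      simp at ht
    · exact h
  have hwne : w ≠ 0 := norm_pos_iff.1 hwpos
  have hwW : ‖w‖ ≤ W₁ := by
    have h1 : s₀ * ‖w‖ ^ 2 < s₀ * W₁ ^ 2 := by
      calc s₀ * ‖w‖ ^ 2 ≤ ‖s‖ * ‖w‖ ^ 2 := mul_le_mul_of_nonneg_right hs1 (by positivity)
        _ = ‖t‖ := hwn.symm
        _ < _ := htδ
    have h2 : ‖w‖ ^ 2 < W₁ ^ 2 := lt_of_mul_lt_mul_left h1 hs₀.le
    exact (lt_of_pow_lt_pow_left₀ 2 hW0.le h2).le
  have w1 : 2 * M * ‖w‖ ≤ 9 / 16 := by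
    have h1 : ‖w‖ ≤ 9 / (32 * M) := by
      refine hwW.trans ?_
      rw [hW₁]; exact (min_le_left _ _).trans (min_le_left _ _)
    rw [le_div_iff₀ (by positivity)] at h1
    linarith
  have w2 : Q * ‖w‖ ≤ 1 := by
    have h1 : ‖w‖ ≤ 1 / (Q + 1) := by
      refine hwW.trans ?_
      rw [hW₁]; exact (min_le_left _ _).trans (min_le_right _ _)
    rw [le_div_iff₀ (by positivity)] at h1
    nlinarith
  have w3 : 2 * ‖w‖ ≤ r := by
    have h1 : ‖w‖ ≤ r / 2 := by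
      refine hwW.trans ?_
      rw [hW₁]; exact (min_le_right _ _).trans (min_le_left _ _)
    linarith
  have w4 : (C + 2) * S₀ * ‖w‖ ≤ β / 2 := by
    have h1 : ‖w‖ ≤ β / (2 * ((C + 2) * S₀)) := by
      refine hwW.trans ?_
      rw [hW₁]; exact (min_le_right _ _).trans ((min_le_right _ _).trans (min_le_left _ _))
    rw [le_div_iff₀ (by positivity)] at h1
    linarith
  have w5 : ‖w‖ ≤ 1 := by
    refine hwW.trans ?_
    rw [hW₁]; exact (min_le_right _ _).trans ((min_le_right _ _).trans (min_le_right _ _))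
  obtain ⟨u, hu, hur⟩ := exists_unit hr₀
  have huc : u * conj u = 1 := by
    rw [Complex.mul_conj, Complex.normSq_eq_norm_sq, hu]; simp
  have hune : u ≠ 0 := by
    intro h; rw [h, norm_zero] at hu; exact zero_ne_one hu
  obtain ⟨ρ, hρ, hρ1, hρh⟩ := exists_start hu (h₀ := 2 * M * ‖w‖) (by positivity) w1
  obtain ⟨ξ, hξ⟩ : ∃ ξ : ℝ → ℂ, ξ = fun τ : ℝ => w * ((τ : ℂ) * u) := ⟨_, rfl⟩
  have hξc : Continuous ξ := by rw [hξ]; fun_prop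
  have hξn : ∀ τ : ℝ, 0 ≤ τ → ‖ξ τ‖ = τ * ‖w‖ := by
    intro τ hτ
    rw [hξ]
    simp only
    rw [norm_mul, norm_mul, hu, Complex.norm_real, Real.norm_eq_abs, abs_of_nonneg hτ]
    ring
  obtain ⟨E, hE⟩ : ∃ E : ℝ, E = Q * ‖w‖ := ⟨_, rfl⟩
  have hE0 : 0 ≤ E := by rw [hE]; positivity
  have hE1 : E ≤ 1 := by rw [hE]; exact w2
  have hI : ∀ τ ∈ Icc ρ (1 + E), 0 < τ ∧ τ ≤ 2 := fun τ hτ => ⟨by linarith [hτ.1], by linarith [hτ.2]⟩
  have hξr : ∀ τ ∈ Icc ρ (1 + E), ‖ξ τ‖ ≤ 2 * ‖w‖ := by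
    intro τ hτ
    rw [hξn τ (hI τ hτ).1.le]
    exact mul_le_mul_of_nonneg_right (hI τ hτ).2 hwpos.le
  have hξ0 : ∀ τ ∈ Icc ρ (1 + E), ξ τ ≠ 0 := by
    intro τ hτ
    rw [← norm_pos_iff, hξn τ (hI τ hτ).1.le]
    exact mul_pos (hI τ hτ).1 hwpos
  -- the parameters of the path are close to the given point
  have hclose : ∀ τ ∈ Icc ρ (1 + E),
      ‖bb x a t (ξ τ) - (fr x a + r₀ * μ)‖ ≤ C * ‖t‖ := by
    intro τ hτ
    have hτ0 := (hI τ hτ).1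
    have hτc : (τ : ℂ) ≠ 0 := by exact_mod_cast hτ0.ne'
    have hk := hL.k (ξ τ) 0 ((hξr τ hτ).trans w3) (by rw [norm_zero]; exact hr.le)
    rw [add_zero, sub_zero, norm_zero, add_zero] at hk
    set R := fr x (a + ξ τ) - fr x a - s * ξ τ with hR
    have e1 : t / ξ τ = -s * (w * (conj u / τ)) := by
      rw [div_eq_iff (hξ0 τ hτ), hw2, hξ]
      simp only
      field_simp
      linear_combination huc
    have e2 : bb x a t (ξ τ) - (fr x a + r₀ * μ) =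
        s * (w * ((1 - τ) / τ) * (conj u - τ * u)) + R := by
      rw [← jk w u hτ0, hμw, ← hur, hR]
      unfold bb
      rw [e1, hξ]
      simp only
      ring
    rw [e2]
    refine (norm_add_le _ _).trans ?_
    have e3 : ‖s * (w * ((1 - τ) / τ) * (conj u - τ * u))‖ =
        ‖s‖ * (‖w‖ * (|(1 - τ) / τ| * ‖conj u - τ * u‖)) := by
      have e4 : ((1 - τ) / τ : ℂ) = (((1 - τ) / τ : ℝ) : ℂ) := by push_cast; ring
      rw [norm_mul, norm_mul, norm_mul, e4, Complex.norm_real, Real.norm_eq_abs]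
      ring
    rw [e3]
    have e5 := path_bound hu hρ hρ1 hρh hτ.1 hτ.2 hE0 hE1
    have e6 : ‖s‖ * (‖w‖ * (|(1 - τ) / τ| * ‖conj u - τ * u‖)) ≤
        ‖s‖ * (‖w‖ * (4 * (2 * M * ‖w‖) + 3 * E)) :=
      mul_le_mul_of_nonneg_left (mul_le_mul_of_nonneg_left e5 hwpos.le) hsn.le
    have e7 : ‖R‖ ≤ K * (4 * ‖w‖ ^ 2) := by
      refine hk.trans (mul_le_mul_of_nonneg_left ?_ hK)
      have := hξr τ hτ
      have h0 := norm_nonneg (ξ τ)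
      nlinarith
    have e8 : K * (4 * ‖w‖ ^ 2) ≤ Q * ‖t‖ := by
      rw [hwn]
      calc K * (4 * ‖w‖ ^ 2) = Q * (s₀ * ‖w‖ ^ 2) := by
            rw [← mul_assoc, ← mul_assoc, hQs]; ring
        _ ≤ Q * (‖s‖ * ‖w‖ ^ 2) :=
            mul_le_mul_of_nonneg_left (mul_le_mul_of_nonneg_right hs1 (by positivity)) hQ0
    have e9 : ‖s‖ * (‖w‖ * (4 * (2 * M * ‖w‖) + 3 * E)) = (8 * M + 3 * Q) * ‖t‖ := by
      rw [hwn, hE]; ring
    rw [hC]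
    nlinarith
  by_contra hcon
  push Not at hcon
  -- the starting point
  have hρI : ρ ∈ Icc ρ (1 + E) := ⟨le_rfl, by linarith⟩
  have hρ0 : 0 < ρ := by linarith
  have hρc : (ρ : ℂ) ≠ 0 := by exact_mod_cast hρ0.ne'
  obtain ⟨p, hp⟩ : ∃ p : ℂ, p = ξ ρ := ⟨_, rfl⟩
  obtain ⟨m, hm⟩ : ∃ m : ℂ, m = w * (conj u / ρ) := ⟨_, rfl⟩
  have hpn : ‖p‖ = ρ * ‖w‖ := by rw [hp, hξn ρ hρ0.le]
  have hmn : ‖m‖ = ‖w‖ / ρ := by
    rw [hm, norm_mul, norm_div, Complex.norm_conj, hu, Complex.norm_real, Real.norm_eq_abs,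
      abs_of_pos hρ0]
    ring
  have hpm : ‖p - m‖ = ‖w‖ / ρ * ‖conj u - ρ ^ 2 * u‖ := by
    have h1 : p - m = -(w / ρ) * (conj u - ρ ^ 2 * u) := by
      rw [hp, hm, hξ]
      simp only
      field_simp
      ring
    rw [h1, norm_mul, norm_neg, norm_div, Complex.norm_real, Real.norm_eq_abs, abs_of_pos hρ0]
  have htpm : t = -s * p * m := by
    rw [hw2, hp, hm, hξ]
    simp only
    field_simp
    linear_combination huc
  have hP : Pair s K M p m := by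
    refine ⟨hsne, hK, by rw [hpn]; positivity, ?_, hM1.trans (mul_le_mul_of_nonneg_left hs1 hM0.le),
      hM0, ?_⟩
    · rw [hpn, hmn, lt_div_iff₀ hρ0]
      have h1 : ρ * ρ < 1 := by nlinarith
      have h2 : (ρ * ρ) * ‖w‖ < 1 * ‖w‖ := mul_lt_mul_of_pos_right h1 hwpos
      linarith
    · rw [hpm, hpn, hmn]
      have h1 : (‖w‖ / ρ - ρ * ‖w‖) * (‖w‖ / ρ * ‖conj u - ρ ^ 2 * u‖) =
          (‖w‖ / ρ) ^ 2 * ((1 - ρ ^ 2) * ‖conj u - ρ ^ 2 * u‖) := by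
        field_simp
      rw [h1, hρh]
      have h2 : M * (‖w‖ / ρ) ^ 3 = (‖w‖ / ρ) ^ 2 * (M * (‖w‖ / ρ)) := by ring
      rw [h2]
      apply mul_le_mul_of_nonneg_left _ (by positivity)
      have h3 : ‖w‖ / ρ ≤ 2 * ‖w‖ := by
        rw [div_le_iff₀ hρ0]; nlinarith
      nlinarith
  have hb0 : ‖fr x a - bb x a t p‖ ≤ β / 2 := by
    have h1 := hclose ρ hρI
    rw [← hp] at h1
    have h2 : ‖fr x a - bb x a t p‖ ≤ ‖bb x a t p - (fr x a + r₀ * μ)‖ + ‖(r₀ : ℂ) * μ‖ := by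
      have := norm_add_le (bb x a t p - (fr x a + r₀ * μ)) ((r₀ : ℂ) * μ)
      rw [norm_sub_rev (fr x a)]
      rwa [show bb x a t p - (fr x a + r₀ * μ) + r₀ * μ = bb x a t p - fr x a by ring] at this
    have h3 : ‖(r₀ : ℂ) * μ‖ ≤ 2 * (S₀ * ‖w‖) := by
      rw [norm_mul, Complex.norm_real, Real.norm_eq_abs, hμw, norm_mul]
      exact mul_le_mul hr₀ (mul_le_mul_of_nonneg_right hs2 hwpos.le) (by positivity) (by norm_num)
    have h4 : C * ‖t‖ ≤ C * (S₀ * ‖w‖) := by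
      apply mul_le_mul_of_nonneg_left _ hC0.le
      rw [hwn]
      have : ‖w‖ ^ 2 ≤ ‖w‖ := by nlinarith
      calc ‖s‖ * ‖w‖ ^ 2 ≤ S₀ * ‖w‖ ^ 2 := mul_le_mul_of_nonneg_right hs2 (by positivity)
        _ ≤ S₀ * ‖w‖ := mul_le_mul_of_nonneg_left this hS₀.le
    have h5 : C * (S₀ * ‖w‖) + 2 * (S₀ * ‖w‖) = (C + 2) * S₀ * ‖w‖ := by ring
    linarith
  obtain ⟨c, hc⟩ : ∃ c : Sph, ¬ LocInj (sp x) c := by
    obtain ⟨-, hmax⟩ := part1 (by omega : 1 ≤ d) x hx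
    exact (good_rat (isRat_sp (by omega) hx) (by omega)).ex
  have hstart : Tendsto (fun k : ℕ => (sp (gx x a (bb x a t (ξ ρ)) t))^[k] c) atTop
      (𝓝 ((a + ξ ρ : ℂ) : Sph)) := by
    rw [← hp]
    obtain ⟨y, h1, h2⟩ := crit_near hx hL ht0 hP htpm hβ hM3 hb0 hc
    apply tendsto_shift (m := 1)
    rw [Function.iterate_one, h1]
    have hpr : ‖p‖ ≤ r := by
      rw [hp]; exact (hξr ρ hρI).trans w3
    exact exact_att hx hL ht0 hP htpm hM2 hpr h2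
  have hend := path_hyp hd hx ht0 hc hξc (show ρ ≤ 1 + E by linarith) hξ0
    (fun τ hτ => hL.q _ ((hξr τ hτ).trans w3))
    (fun τ hτ => hcon _ (hclose τ hτ)) hstart
  have hEI : 1 + E ∈ Icc ρ (1 + E) := ⟨by linarith, le_rfl⟩
  rw [norm_gamd x a ht0 (hξ0 _ hEI), div_lt_one ht, hξn _ (by linarith)] at hend
  have h1 := hdr (ξ (1 + E)) ((hξr _ hEI).trans w3)
  rw [hξn _ (by linarith), ← hs] at h1
  have h2 : ‖s‖ - K * ((1 + E) * ‖w‖) ≤ ‖dr x (a + ξ (1 + E))‖ := by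
    have := norm_sub_le (dr x (a + ξ (1 + E))) (dr x (a + ξ (1 + E)) - s)
    rw [sub_sub_cancel] at this
    linarith
  -- K (1 + E) |w| ≤ 2 K |w| = s₀ E / 2 ≤ |s| E / 2
  have h3 : K * ((1 + E) * ‖w‖) ≤ ‖s‖ * (E / 2) := by
    have e1 : K * ((1 + E) * ‖w‖) ≤ K * (2 * ‖w‖) :=
      mul_le_mul_of_nonneg_left (mul_le_mul_of_nonneg_right (by linarith) hwpos.le) hK
    have e2 : K * (2 * ‖w‖) = s₀ * (E / 2) := by
      rw [hE]
      calc K * (2 * ‖w‖) = (4 * K) * (‖w‖ / 2) := by ring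
        _ = (Q * s₀) * (‖w‖ / 2) := by rw [hQs]
        _ = _ := by ring
    have e3 : s₀ * (E / 2) ≤ ‖s‖ * (E / 2) := mul_le_mul_of_nonneg_right hs1 (by linarith)
    linarith
  have h4 : ‖s‖ * (1 - E / 2) ≤ ‖dr x (a + ξ (1 + E))‖ := by nlinarith
  have h5 : ‖s‖ * (1 - E / 2) * ((1 + E) * ‖w‖) ^ 2 ≤
      ‖dr x (a + ξ (1 + E))‖ * ((1 + E) * ‖w‖) ^ 2 :=
    mul_le_mul_of_nonneg_right h4 (by positivity)
  have h6 : ‖t‖ ≤ ‖s‖ * (1 - E / 2) * ((1 + E) * ‖w‖) ^ 2 := by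
    rw [hwn]
    have e1 : 1 ≤ (1 - E / 2) * (1 + E) ^ 2 := by nlinarith [mul_nonneg hE0 (sub_nonneg.2 hE1)]
    calc ‖s‖ * ‖w‖ ^ 2 = (‖s‖ * ‖w‖ ^ 2) * 1 := by ring
      _ ≤ (‖s‖ * ‖w‖ ^ 2) * ((1 - E / 2) * (1 + E) ^ 2) :=
          mul_le_mul_of_nonneg_left e1 (by positivity)
      _ = _ := by ring
  linarith

end Pool.Agent.Helper29.MS
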